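import Pool.Agent.Helper18.GPL.DiscLevel
import Pool.Agent.Helper59.GP.Exp
import Pool.Agent.Helper59.MF.FinK
import Pool.Agent.Helper59.MF.FinL

/-!
The multifractal analysis of Koksma's theorem.
-/

set_option autoImplicit false

namespace Pool.Agent.Helper18.GPL

open Finset MeasureTheory Filter Topology
open Pool.Agent.Helper18.GP (gp nm gp_cont coeff_zero nm_nonneg kap rateD)
open Pool.Agent.Helper78.KD (disc)
open Pool.Agent.Helper59.GP (rateL rateD_exp)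

/-- a trigonometric polynomial given by a finite set of frequencies -/
theorem gp_of_sum {S : Finset ℤ} {z : ℤ → ℂ} {φ : ℝ → ℝ} (hS : 0 ∉ S)
    (hφ : ∀ t : ℝ, (φ t : ℂ) = ∑ h ∈ S, z h * Complex.exp (2 * Real.pi * Complex.I * (h * t : ℝ))) :
    ∃ (H : ℕ) (c : ℤ → ℂ), (∀ t, gp H c t = φ t) ∧ c 0 = 0 := by
  refine ⟨S.sup Int.natAbs, fun k => if k ∈ S then z k else 0, fun t => ?_, by simp [hS]⟩
  rw [hφ t]
  unfold gp
  rw [← Finset.sum_subset (s₁ := S)]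
  · refine Finset.sum_congr rfl fun k hk => ?_
    simp only [if_pos hk]
    congr 1
    unfold Pool.Agent.Helper82.FK.e
    congr 1
    push_cast
    ring
  · intro k hk
    have h1 : k.natAbs ≤ S.sup Int.natAbs := Finset.le_sup hk
    rw [Finset.mem_Icc]
    omega
  · intro k _ hk
    simp only [if_neg hk, zero_mul]

/-- the law of `u 0, u 1, ...` modulo one is `g(t) dt` -/
def LawI (u : ℕ → ℝ) (g : ℝ → ℝ) : Prop :=
  ∀ α β : ℝ, 0 ≤ α → α ≤ β → β ≤ 1 →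
    Tendsto (fun N : ℕ => (((range N).filter
      (fun n => α ≤ Int.fract (u n) ∧ Int.fract (u n) < β)).card : ℝ) / N) atTop
      (𝓝 (∫ t in α..β, g t))

open scoped Classical in
/-- the joint law of `r` consecutive terms modulo one is the product law, for every `r` -/
def IndepI (u : ℕ → ℝ) (g : ℝ → ℝ) : Prop :=
  ∀ (r : ℕ) (α β : Fin r → ℝ), (∀ i, 0 ≤ α i ∧ α i ≤ β i ∧ β i ≤ 1) →
    Tendsto (fun N : ℕ => (((range N).filter
      (fun n => ∀ i : Fin r, α i ≤ Int.fract (u (n + i)) ∧ Int.fract (u (n + i)) < β i)).card : ℝ) / N)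
      atTop (𝓝 (∏ i, ∫ t in (α i)..(β i), g t))

theorem IndepI.law {u : ℕ → ℝ} {g : ℝ → ℝ} (h : IndepI u g) : LawI u g := by
  intro α β hα hαβ hβ
  have h1 := h 1 (fun _ => α) (fun _ => β) (fun _ => ⟨hα, hαβ, hβ⟩)
  simp only [Finset.univ_unique, Fin.default_eq_zero, Fin.isValue, Finset.prod_const,
    Finset.card_singleton, pow_one] at h1
  refine h1.congr fun N => ?_
  congr 3
  ext n
  simp only [mem_filter, and_congr_right_iff]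
  intro _
  constructor
  · intro h2
    exact h2 0
  · intro h2 i
    have : i = 0 := Subsingleton.elim _ _
    rw [this]
    exact h2

theorem kap_le_kJ {a₀ a : ℝ} (ha : 1 < a₀) (haa : a₀ ≤ a) {D : ℕ} (hD : 1 ≤ D) :
    kap a₀ ((2 * D : ℕ) : ℝ) / 4 ≤ Pool.Agent.GJ.kJ a D := by
  have hDr : (1 : ℝ) ≤ D := by exact_mod_cast hD
  have h2 : (Pool.Agent.Helper18.GP.KK a (2 * D) : ℝ) ≤ Pool.Agent.Helper18.GP.KK a₀ (2 * D) :=
    Nat.cast_le.2 (KK_anti ha haa (X := 2 * (D : ℝ)) (by linarith))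
  unfold Pool.Agent.GJ.kJ Pool.Agent.GJ.KJ kap
  push_cast
  rw [div_div, div_le_div_iff₀ (by positivity) (by positivity)]
  have h3 : (0 : ℝ) ≤ Pool.Agent.Helper18.GP.KK a₀ (2 * D) := Nat.cast_nonneg _
  linarith

/-- **The points with a prescribed law.** -/
theorem laws {a₀ : ℝ} (ha₀ : 1 < a₀) (H : ℕ) (hH : 1 ≤ H) : ∃ κ : ℝ, 0 < κ ∧ ∀ (G : ℤ → ℂ) (g : ℝ → ℝ),
    (∀ t : ℝ, (g t : ℂ) = ∑ k ∈ Icc (-(H : ℤ)) H, G k * Complex.exp (2 * Real.pi * Complex.I * (k * t : ℝ))) →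
    G 0 = 1 → (∀ t : ℝ, 0 < g t) → ∀ a b : ℝ, a₀ ≤ a → a < b → ∑ k ∈ Icc (-(H : ℤ)) H, ‖G k‖ < a ^ κ → ∀ s : ℕ → ℝ,
      (∫ t in (0 : ℝ)..1, g t * Real.log (g t)) < Real.log b ∧
      dimH {x | x ∈ Set.Ioo a b ∧ LawI (fun n => x ^ (n + 1) + s n) g} =
        ENNReal.ofReal (1 - (∫ t in (0 : ℝ)..1, g t * Real.log (g t)) / Real.log b) ∧
      dimH {x | x ∈ Set.Ioo a b ∧ IndepI (fun n => x ^ (n + 1) + s n) g} =
        ENNReal.ofReal (1 - (∫ t in (0 : ℝ)..1, g t * Real.log (g t)) / Real.log b) := by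
  refine ⟨kap a₀ ((2 * H : ℕ) : ℝ) / 4, by unfold kap; positivity, ?_⟩
  intro G g hg h0 hpos a b haa hab hG s
  have ha : 1 < a := by linarith
  have hd : Pool.Agent.Helper59.MF.Dens H G g := ⟨hg, h0, hpos⟩
  have hgp : ∀ t, Pool.Agent.Helper18.GP.gp H G t = g t := fun t => by
    rw [hg t]
    unfold Pool.Agent.Helper18.GP.gp Pool.Agent.Helper82.FK.e
    refine sum_congr rfl fun k _ => ?_
    congr 2
    push_cast
    ring
  have hW : nm H G < a ^ (Pool.Agent.GJ.kJ a H) :=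
    lt_of_lt_of_le hG (Real.rpow_le_rpow_of_exponent_le ha.le (kap_le_kJ ha₀ haa hH))
  obtain ⟨hk1, hk2⟩ := Pool.Agent.GJ.dim_J ha hab hH hgp h0 hpos hW s
  have i1 : {x | x ∈ Set.Ioo a b ∧ LawI (fun n => x ^ (n + 1) + s n) g} ⊆
      {x : ℝ | x ∈ Set.Ioo a b ∧ Pool.Agent.Helper59.MF.HasLaw (fun n => x ^ (n + 1) + s n) g} := fun x hx =>
    ⟨hx.1, Pool.Agent.Helper59.MF.law_of_intervals hd hx.2⟩
  have i2 : {x : ℝ | x ∈ Set.Ioo a b ∧ Pool.Agent.Helper59.MF.HasJoint (fun n => x ^ (n + 1) + s n) g} ⊆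
      {x | x ∈ Set.Ioo a b ∧ IndepI (fun n => x ^ (n + 1) + s n) g} := fun x hx =>
    ⟨hx.1, fun r α β hαβ => Pool.Agent.Helper59.MF.joint_box hd hx.2 r α β
      (fun i => (hαβ i).1) (fun i => (hαβ i).2.1) (fun i => (hαβ i).2.2)⟩
  have i3 : {x | x ∈ Set.Ioo a b ∧ IndepI (fun n => x ^ (n + 1) + s n) g} ⊆
      {x | x ∈ Set.Ioo a b ∧ LawI (fun n => x ^ (n + 1) + s n) g} :=
    fun x hx => ⟨hx.1, hx.2.law⟩
  have j1 := dimH_mono i1
  have j2 := dimH_mono i2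
  have j3 := dimH_mono i3
  rw [hk1] at j1
  rw [hk2] at j2
  refine ⟨?_, le_antisymm j1 (j2.trans j3), le_antisymm (j3.trans j1) j2⟩
  have hb : 1 < b := ha.trans hab
  have hW1 := Pool.Agent.GE.one_le_nm (H := H) h0
  have hc : Continuous g := hd.cont
  have hc2 : Continuous fun t => g t * Real.log (g t) := hc.mul (hc.log fun t => (hpos t).ne')
  have hκ1 : Pool.Agent.GJ.kJ a H ≤ 1 := by
    unfold Pool.Agent.GJ.kJ
    rw [div_le_one (by positivity)]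
    have : (0 : ℝ) ≤ Pool.Agent.GJ.KJ a H := Nat.cast_nonneg _
    linarith
  have hnb : nm H G < b := by
    refine hW.trans_le (le_trans ?_ hab.le)
    calc a ^ (Pool.Agent.GJ.kJ a H) ≤ a ^ (1 : ℝ) := Real.rpow_le_rpow_of_exponent_le ha.le hκ1
      _ = a := Real.rpow_one a
  refine lt_of_le_of_lt ?_ (Real.log_lt_log (by linarith) hnb)
  calc ∫ t in (0 : ℝ)..1, g t * Real.log (g t)
      ≤ ∫ t in (0 : ℝ)..1, g t * Real.log (nm H G) := by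
        refine intervalIntegral.integral_mono_on zero_le_one (hc2.intervalIntegrable _ _)
          ((hc.mul continuous_const).intervalIntegrable _ _) fun t _ => ?_
        exact mul_le_mul_of_nonneg_left (Real.log_le_log (hpos t) (Pool.Agent.GE.g_le_nm hgp t)) (hpos t).le
    _ = Real.log (nm H G) := by
        rw [intervalIntegral.integral_mul_const, Pool.Agent.Helper59.MF.int_gr hd, one_mul]

/-- **Multifractal analysis of Koksma's theorem.** -/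
theorem main3 :
    (∀ a₀ : ℝ, 1 < a₀ →
      (∃ c δ₀ : ℝ, 0 < c ∧ 0 < δ₀ ∧ ∀ a b δ : ℝ, a₀ ≤ a → a < b → 0 < δ → δ ≤ δ₀ → ∀ s : ℕ → ℝ,
        DimLevel a b (fun x N => disc (fun n => x ^ (n + 1) + s n) N) δ (rateD δ) (Real.exp (-(c / √δ)))) ∧
      (∀ (φ : ℝ → ℝ) (K : ℝ), (∀ t, φ (t + 1) = φ t) → (∀ s t, |φ s - φ t| ≤ K * |s - t|) →
        ∫ t in (0:ℝ)..1, φ t = 0 → (∃ t, φ t ≠ 0) →
        ∃ c δ₀ : ℝ, 0 < c ∧ 0 < δ₀ ∧ ∀ a b δ : ℝ, a₀ ≤ a → a < b → 0 < δ → δ ≤ δ₀ → ∀ s : ℕ → ℝ,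
          DimLevel a b (fun x N => (∑ n ∈ Finset.range N, φ (x ^ (n + 1) + s n)) / N) δ (rateL φ δ)
            (Real.exp (-(c / δ)))) ∧
      (∀ (φ : ℝ → ℝ) (S : Finset ℤ) (z : ℤ → ℂ), 0 ∉ S →
        (∀ t : ℝ, (φ t : ℂ) = ∑ h ∈ S, z h * Complex.exp (2 * Real.pi * Complex.I * (h * t : ℝ))) → (∃ t, φ t ≠ 0) →
        ∃ c δ₀ : ℝ, 0 < c ∧ 0 < δ₀ ∧ ∀ a b δ : ℝ, a₀ ≤ a → a < b → 0 < δ → δ ≤ δ₀ → ∀ s : ℕ → ℝ,
          DimLevel a b (fun x N => (∑ n ∈ Finset.range N, φ (x ^ (n + 1) + s n)) / N) δ (rateL φ δ)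
            (Real.exp (-Real.exp (c / δ)))) ∧
      (∀ m : ℕ, 1 ≤ m →
        ∃ c δ₀ : ℝ, 0 < c ∧ 0 < δ₀ ∧ ∀ a b δ : ℝ, a₀ ≤ a → a < b → 0 < δ → δ ≤ δ₀ → ∀ s : ℕ → ℝ,
          DimLevel a b (fun x N => ‖∑ n ∈ Finset.range N, Complex.exp (2 * Real.pi * Complex.I *
            ((m * (x ^ (n + 1) + s n) : ℝ) : ℂ))‖ / N) δ (rateL (fun t => Real.cos (2 * Real.pi * t)) δ)
            (Real.exp (-Real.exp (c / δ)))) ∧
      (∀ H : ℕ, 1 ≤ H → ∃ κ : ℝ, 0 < κ ∧ ∀ (G : ℤ → ℂ) (g : ℝ → ℝ),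
        (∀ t : ℝ, (g t : ℂ) = ∑ k ∈ Finset.Icc (-(H : ℤ)) H, G k * Complex.exp (2 * Real.pi * Complex.I * (k * t : ℝ))) →
        G 0 = 1 → (∀ t : ℝ, 0 < g t) → ∀ a b : ℝ, a₀ ≤ a → a < b → ∑ k ∈ Finset.Icc (-(H : ℤ)) H, ‖G k‖ < a ^ κ →
        ∀ s : ℕ → ℝ, (∫ t in (0 : ℝ)..1, g t * Real.log (g t)) < Real.log b ∧
          dimH {x | x ∈ Set.Ioo a b ∧ LawI (fun n => x ^ (n + 1) + s n) g} =
            ENNReal.ofReal (1 - (∫ t in (0 : ℝ)..1, g t * Real.log (g t)) / Real.log b) ∧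
          dimH {x | x ∈ Set.Ioo a b ∧ IndepI (fun n => x ^ (n + 1) + s n) g} =
            ENNReal.ofReal (1 - (∫ t in (0 : ℝ)..1, g t * Real.log (g t)) / Real.log b))) ∧
    (∀ δ : ℝ, 0 < δ → δ ≤ 1 / 8 → |rateD δ - (2 * δ ^ 2 + 4 / 9 * δ ^ 4)| ≤ 16384 * δ ^ 6) := by
  refine ⟨fun a₀ ha => ⟨disc_level ha, fun φ K hper hlip hmean hne => ?_,
    fun φ S z hS hφ hne => ?_, fun m hm => weyl_level m hm ha, fun H hH => laws ha H hH⟩, fun δ h0 h1 => rateD_exp h0 h1⟩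
  · exact lip_level hper hlip hmean hne ha
  · obtain ⟨H, c, hp, hc0⟩ := gp_of_sum hS hφ
    exact trig_level hp hc0 hne ha

end Pool.Agent.Helper18.GPL
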