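import Pool.Agent.Helper18.GPL.Gibbs
import Pool.Agent.Helper59.GP.Mean

/-!
The Gibbs law with a given mean.
-/

set_option autoImplicit false

namespace Pool.Agent.Helper18.GPL

open Finset MeasureTheory Filter Topology
open Pool.Agent.Helper18.GP (gp nm gp_cont gp_lip coeff_zero nm_nonneg kap lam lam_mono one_le_mgf)
open Pool.Agent.Helper59.MF (HasLaw HasJoint)
open Pool.Agent.Helper59.GP (rateL rate_attained)

theorem exists_theta {p φ : ℝ → ℝ} (hpc : Continuous p) (hφc : Continuous φ) (hpm : ∫ t in (0 : ℝ)..1, p t = 0)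
    (hφm : ∫ t in (0 : ℝ)..1, φ t = 0) {n : ℕ} {Θ y E : ℝ} (hΘ : 0 ≤ Θ)
    (hq : ∀ θ, 0 ≤ θ → θ ≤ Θ → ∀ t, |θ * p t| ≤ y) (hy : y ≤ 1 / 4) (hE : 2 * y ^ (n + 1) ≤ E) (hE1 : E ≤ 1 / 8)
    {δ : ℝ} (hδ : 0 ≤ δ) (hbig : 2 * δ ≤ ∫ t in (0 : ℝ)..1, Tp p n Θ t * φ t) :
    ∃ θ, 0 ≤ θ ∧ θ ≤ Θ ∧ ∫ t in (0 : ℝ)..1, gT p n θ t * φ t = δ := by
  have hF : Continuous fun θ => ∫ t in (0 : ℝ)..1, Tp p n θ t * φ t := by
    refine intervalIntegral.continuous_parametric_intervalIntegral_of_continuous' ?_ 0 1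
    have h1 := Tp_cont2 hpc n
    exact h1.mul (hφc.comp continuous_snd)
  have hm := mT_cont hpc n
  have hmp : ∀ θ ∈ Set.Icc (0 : ℝ) Θ, mT p n θ ≠ 0 := fun θ hθ => by
    have := mT_pos hpc hpm (hq θ hθ.1 hθ.2) hy hE hE1
    linarith
  have hf : ContinuousOn (fun θ => (∫ t in (0 : ℝ)..1, Tp p n θ t * φ t) / mT p n θ) (Set.Icc 0 Θ) :=
    hF.continuousOn.div hm.continuousOn hmp
  have h0 : (∫ t in (0 : ℝ)..1, Tp p n 0 t * φ t) / mT p n 0 = 0 := by
    have h1 : ∀ t, Tp p n 0 t = 1 := by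
      intro t
      unfold Tp
      rw [Finset.sum_range_succ']
      simp
    simp only [h1, one_mul]
    rw [hφm, zero_div]
  have h1 : δ ≤ (∫ t in (0 : ℝ)..1, Tp p n Θ t * φ t) / mT p n Θ := by
    have h2 := mT_pos hpc hpm (hq Θ hΘ le_rfl) hy hE hE1
    have h3 := (mT_bd hpc (hq Θ hΘ le_rfl) hy hE (n := n)).2
    have h4 : ∫ t in (0 : ℝ)..1, Real.exp (Θ * p t) ≤ ∫ _ in (0 : ℝ)..1, (3 / 2 : ℝ) := by
      refine intervalIntegral.integral_mono_on (by norm_num) (Continuous.intervalIntegrable (by fun_prop) _ _)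
        (by simp) fun t _ => ?_
      have h5 := (abs_le.1 (hq Θ hΘ le_rfl t)).2
      have h6 : Real.exp (Θ * p t) ≤ Real.exp (1 / 4) := Real.exp_le_exp.2 (by linarith)
      have h7 : Real.exp (1 / 4 : ℝ) ≤ 3 / 2 := by
        have h8 := Real.exp_bound' (show (0 : ℝ) ≤ 1 / 4 by norm_num) (by norm_num) (show 0 < 2 by norm_num)
        norm_num [Finset.sum_range_succ, Nat.factorial] at h8
        linarith
      linarith
    simp only [intervalIntegral.integral_const, sub_zero, smul_eq_mul, one_mul] at h4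
    rw [le_div_iff₀ (by linarith)]
    have h5 : δ * mT p n Θ ≤ δ * 2 := mul_le_mul_of_nonneg_left (by linarith) hδ
    linarith
  obtain ⟨θ, hθ, hθv⟩ := intermediate_value_Icc hΘ hf (show δ ∈ Set.Icc _ _ from ⟨by simp only [h0]; exact hδ, h1⟩)
  refine ⟨θ, hθ.1, hθ.2, ?_⟩
  simp only at hθv
  rw [← hθv, ← intervalIntegral.integral_div]
  refine intervalIntegral.integral_congr fun t _ => ?_
  simp only [gT]
  ring

theorem big {p φ : ℝ → ℝ} (hpc : Continuous p) (hφc : Continuous φ) (hφm : ∫ t in (0 : ℝ)..1, φ t = 0) {n : ℕ}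
    {Θ y E M η V : ℝ} (hΘ : 0 ≤ Θ) (hq : ∀ t, |Θ * p t| ≤ y) (hy : y ≤ 1 / 4) (hE : 2 * y ^ (n + 1) ≤ E)
    (hb : ∀ t, |φ t| ≤ M) (hpφ : ∀ t, |p t - φ t| ≤ η) (hV : V = ∫ t in (0 : ℝ)..1, φ t ^ 2) :
    Θ * (V - M * η) - M * (y ^ 2 + E) ≤ ∫ t in (0 : ℝ)..1, Tp p n Θ t * φ t := by
  have hM : 0 ≤ M := (abs_nonneg _).trans (hb 0)
  have hy0 : 0 ≤ y := (abs_nonneg _).trans (hq 0)
  have hT := Tp_cont hpc n Θ
  have h1 : ∀ t, φ t + Θ * (φ t ^ 2 - M * η) - M * (y ^ 2 + E) ≤ Tp p n Θ t * φ t := by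
    intro t
    have h2 := Tp_near hq hy hE (n := n) t
    have h3 := Real.abs_exp_sub_one_sub_id_le (x := Θ * p t) ((hq t).trans (by linarith))
    have h4 : (Θ * p t) ^ 2 ≤ y ^ 2 := by
      rw [← sq_abs]
      exact pow_le_pow_left₀ (abs_nonneg _) (hq t) 2
    have h5 : |Tp p n Θ t - 1 - Θ * p t| ≤ y ^ 2 + E := by
      have h6 : Tp p n Θ t - 1 - Θ * p t = (Real.exp (Θ * p t) - 1 - Θ * p t) - (Real.exp (Θ * p t) - Tp p n Θ t) := by ring
      rw [h6]
      exact (abs_sub _ _).trans (by linarith)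
    have h6 : |(Tp p n Θ t - 1 - Θ * p t) * φ t| ≤ (y ^ 2 + E) * M := by
      rw [abs_mul]
      exact mul_le_mul h5 (hb t) (abs_nonneg _) ((abs_nonneg _).trans h5)
    have h7 : |(p t - φ t) * φ t| ≤ η * M := by
      rw [abs_mul]
      exact mul_le_mul (hpφ t) (hb t) (abs_nonneg _) ((abs_nonneg _).trans (hpφ t))
    have h8 := (abs_le.1 h6).1
    have h9 := mul_le_mul_of_nonneg_left (abs_le.1 h7).1 hΘ
    linarith
  have h2 : ∫ t in (0 : ℝ)..1, (φ t + Θ * (φ t ^ 2 - M * η) - M * (y ^ 2 + E)) ≤ ∫ t in (0 : ℝ)..1, Tp p n Θ t * φ t :=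
    intervalIntegral.integral_mono_on (by norm_num) (Continuous.intervalIntegrable (by fun_prop) _ _)
      (Continuous.intervalIntegrable (by fun_prop) _ _) fun t _ => h1 t
  refine le_trans (le_of_eq ?_) h2
  rw [intervalIntegral.integral_sub (Continuous.intervalIntegrable (by fun_prop) _ _) (by simp),
    intervalIntegral.integral_add (Continuous.intervalIntegrable (by fun_prop) _ _)
      (Continuous.intervalIntegrable (by fun_prop) _ _), hφm, intervalIntegral.integral_const_mul,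
    intervalIntegral.integral_sub (Continuous.intervalIntegrable (by fun_prop) _ _) (by simp), ← hV]
  simp

/-- **The points with a Gibbs law of mean `δ`.** -/
theorem level_core {a₀ : ℝ} (ha : 1 < a₀) {φ : ℝ → ℝ} (hφ : Continuous φ) {M V A : ℝ} (hb : ∀ t, |φ t| ≤ M) (hM : 1 ≤ M)
    (hmean : ∫ t in (0 : ℝ)..1, φ t = 0) (hV : V = ∫ t in (0 : ℝ)..1, φ t ^ 2) (hV0 : 0 < V) (hVM : V ≤ M ^ 2)
    (hA : M + 1 + 32 / V ≤ A) {δ η : ℝ} (h0 : 0 < δ) (hη0 : 0 < η) (hδA : 200 * A ^ 5 * δ ≤ 1) (hηA : 200 * A ^ 5 * η ≤ δ)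
    (hd3 : δ * (32 * M ^ 3) ≤ V ^ 2) (hd4 : 8 * M * δ ≤ V) {H : ℕ} {c : ℤ → ℂ} {p : ℝ → ℝ} (hp : ∀ t, gp H c t = p t)
    (hc0 : c 0 = 0) (hpφ : ∀ t, |p t - φ t| ≤ η) {n : ℕ} (hyn : (2 * A ^ 2 * δ) ^ (n + 1) ≤ η ^ 2 / 100)
    (hkap : 4 * (2 * A * nm H c + 2) * δ < Real.log a₀ * kap a₀ ((2 * (n * (H + 1) + 1) : ℕ) : ℝ)) :
    ∃ θ, 0 ≤ θ ∧ ∫ t in (0 : ℝ)..1, gT p n θ t * φ t = δ ∧ ∀ a b, a₀ ≤ a → a < b → ∀ s : ℕ → ℝ,
      ENNReal.ofReal (1 - (rateL φ δ + 3 * η) / Real.log b) ≤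
        dimH {x : ℝ | x ∈ Set.Ioo a b ∧ HasLaw (fun n => x ^ (n + 1) + s n) (gT p n θ)} := by
  have hAV0 : 0 < 32 / V := by positivity
  have hA1 : 1 ≤ A := by linarith
  have hA0 : 0 < A := by linarith
  have hAM : M + 1 ≤ A := by linarith
  have hAV : 32 ≤ A * V := by
    have : 32 / V ≤ A := by linarith
    rwa [div_le_iff₀ hV0] at this
  have hA5 : (1 : ℝ) ≤ A ^ 5 := one_le_pow₀ hA1
  have hA25 : A ^ 2 ≤ A ^ 5 := pow_le_pow_right₀ hA1 (by norm_num)
  have hA15 : A ≤ A ^ 5 := le_self_pow₀ hA1 (by norm_num)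
  have hδ5 := mul_le_mul_of_nonneg_right hA5 h0.le
  have hη5 := mul_le_mul_of_nonneg_right hA5 hη0.le
  have hδ200 : 200 * δ ≤ 1 := by linarith
  have hη200 : 200 * η ≤ δ := by linarith
  have hAδ1 : A * δ ≤ 1 := by
    have := mul_le_mul_of_nonneg_right hA15 h0.le
    linarith
  have hnm0 := nm_nonneg H c
  have hpc : Continuous p := by
    have h4 : p = fun t => (gp H c t).re := by
      funext t
      rw [hp t, Complex.ofReal_re]
    rw [h4]
    exact Complex.continuous_re.comp (gp_cont H c)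
  have hpm : ∫ t in (0 : ℝ)..1, p t = 0 := by
    have := coeff_zero hp
    rw [hc0] at this
    exact_mod_cast this.symm
  have hbA : ∀ t, |p t| ≤ A := fun t => by
    have h1 := hb t
    have h2 := hpφ t
    have h3 : |p t| ≤ |φ t| + |p t - φ t| := by
      have h4 : p t = φ t + (p t - φ t) := by ring
      calc |p t| = |φ t + (p t - φ t)| := by rw [← h4]
        _ ≤ _ := abs_add_le _ _
    linarith
  obtain ⟨-, hrate⟩ := rate_attained hφ hb hM hmean hV0 hVM hV.le (A := A) (by linarith)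
    hA0.le h0 hd3
  obtain ⟨y, hy⟩ : ∃ y : ℝ, y = 2 * A ^ 2 * δ := ⟨_, rfl⟩
  rw [← hy] at hyn
  have hy0 : 0 < y := by rw [hy]; positivity
  have hy100 : y ≤ 1 / 100 := by
    rw [hy]
    have := mul_le_mul_of_nonneg_right hA25 h0.le
    linarith
  have hy4 : y ≤ 1 / 4 := by linarith
  have hη1 : η ≤ 1 := by linarith
  have hη2 : η ^ 2 ≤ η := by
    have := mul_le_mul_of_nonneg_right hη1 hη0.le
    linarith
  obtain ⟨E, hEd⟩ : ∃ E : ℝ, E = 2 * y ^ (n + 1) := ⟨_, rfl⟩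
  have hE0 : 0 < E := by rw [hEd]; positivity
  have hEη : E ≤ η / 50 := by linarith
  have hE8 : E ≤ 1 / 8 := by linarith
  have hq : ∀ θ, 0 ≤ θ → θ ≤ A * δ → ∀ t, |θ * p t| ≤ y := fun θ hθ0 hθA t => by
    rw [abs_mul, abs_of_nonneg hθ0]
    calc θ * |p t| ≤ (A * δ) * A := mul_le_mul hθA (hbA t) (abs_nonneg _) (by positivity)
      _ ≤ y := by
        rw [hy]
        have : 0 ≤ A ^ 2 * δ := by positivity
        linarith
  have hAδ0 : 0 ≤ A * δ := by positivity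
  have hbig : 2 * δ ≤ ∫ t in (0 : ℝ)..1, Tp p n (A * δ) t * φ t := by
    have h1 := big hpc hφ hmean (n := n) hAδ0 (hq _ hAδ0 le_rfl) hy4 hEd.ge hb hpφ hV
    refine le_trans ?_ h1
    have h2 : M * η ≤ V / 4 := by
      have h4 := mul_le_mul_of_nonneg_left hη200 (show 0 ≤ M by linarith)
      linarith
    have h3 : A * δ * (V / 2) ≤ A * δ * (V - M * η) := mul_le_mul_of_nonneg_left (by linarith) hAδ0
    have h4 : 16 * δ ≤ A * δ * (V / 2) := by
      have := mul_le_mul_of_nonneg_right hAV h0.le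
      linarith
    have h5 : M * (y ^ 2 + E) ≤ δ := by
      have h6 : M * y ^ 2 ≤ A * y ^ 2 := mul_le_mul_of_nonneg_right (by linarith) (sq_nonneg y)
      have h7 : A * y ^ 2 = 4 * A ^ 5 * δ * δ := by rw [hy]; ring
      have h8 : 200 * A ^ 5 * δ * δ ≤ 1 * δ := mul_le_mul_of_nonneg_right hδA h0.le
      have h9 : M * E ≤ A * (η / 50) := mul_le_mul (by linarith) hEη hE0.le hA0.le
      have h10 := mul_le_mul_of_nonneg_right hA15 hη0.le
      linarith
    linarith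
  obtain ⟨θ, hθ0, hθA, hθv⟩ := exists_theta hpc hφ hpm hmean hAδ0 hq hy4 hEd.ge hE8 h0.le hbig
  refine ⟨θ, hθ0, hθv, fun a b haa hab s => ?_⟩
  have hqθ := hq θ hθ0 hθA
  have hW : Real.exp (θ * nm H c) < (1 - E) * a₀ ^ (kap a₀ ((2 * (n * (H + 1) + 1) : ℕ) : ℝ) / 4) := by
    rw [Real.rpow_def_of_pos (by linarith)]
    have h1 : θ * nm H c ≤ A * δ * nm H c := mul_le_mul_of_nonneg_right hθA hnm0
    have h2 : Real.exp (-δ) ≤ 1 - E := by
      have h4 : Real.exp (-δ) ≤ 1 / (1 + δ) := by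
        rw [Real.exp_neg, ← one_div]
        exact one_div_le_one_div_of_le (by linarith) (by linarith [Real.add_one_le_exp δ])
      refine h4.trans ?_
      rw [div_le_iff₀ (by linarith)]
      have h5 : E * δ ≤ E * 1 := mul_le_mul_of_nonneg_left (by linarith) hE0.le
      linarith
    have h3 : Real.exp (θ * nm H c) < Real.exp (-δ) * Real.exp (Real.log a₀ * (kap a₀ ((2 * (n * (H + 1) + 1) : ℕ) : ℝ) / 4)) := by
      rw [← Real.exp_add]
      refine Real.exp_lt_exp.2 ?_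
      have h4 : 0 ≤ A * δ * nm H c := by positivity
      linarith
    refine h3.trans_le ?_
    exact mul_le_mul_of_nonneg_right h2 (Real.exp_pos _).le
  have hmain := law_dim ha haa hab hp hc0 hθ0 hqθ hy4 hEd.ge hE8 hW s
  refine (ENNReal.ofReal_le_ofReal ?_).trans hmain
  have hlb : 0 < Real.log b := Real.log_pos (by linarith)
  have h1 : θ * (∫ t in (0 : ℝ)..1, gT p n θ t * p t) - lam p θ + 4 * E ≤ rateL φ δ + 3 * η := by
    have hθ1 : θ ≤ 1 := hθA.trans hAδ1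
    have hgc := gT_cont hpc n θ
    have hg0 := gT_pos hpc hpm hqθ hy4 hEd.ge hE8
    have hg1 := gT_one hpc hpm hqθ hy4 hEd.ge hE8
    have h2 : ∫ t in (0 : ℝ)..1, gT p n θ t * p t ≤ δ + η := by
      have h3 : ∫ t in (0 : ℝ)..1, gT p n θ t * p t ≤ ∫ t in (0 : ℝ)..1, (gT p n θ t * φ t + η * gT p n θ t) :=
        intervalIntegral.integral_mono_on (by norm_num) (Continuous.intervalIntegrable (by fun_prop) _ _)
          (Continuous.intervalIntegrable (by fun_prop) _ _) fun t _ => by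
            have h4 := (abs_le.1 (hpφ t)).2
            have h5 := mul_le_mul_of_nonneg_left (show p t ≤ φ t + η by linarith) (hg0 t).le
            linarith
      rw [intervalIntegral.integral_add (Continuous.intervalIntegrable (by fun_prop) _ _)
        (Continuous.intervalIntegrable (by fun_prop) _ _), intervalIntegral.integral_const_mul, hg1, hθv] at h3
      linarith
    have h3 := mul_le_mul_of_nonneg_left h2 hθ0
    have h4 := lam_mono hφ hpc (η := η) (fun t => by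
      have := (abs_le.1 (hpφ t)).1
      linarith) hθ0
    have h5 := hrate θ
    have h6 := mul_le_mul_of_nonneg_right hθ1 hη0.le
    linarith
  have h2 := div_le_div_of_nonneg_right h1 hlb.le
  linarith

end Pool.Agent.Helper18.GPL
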