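import Pool.Agent.Helper18.GPL.Core
import Pool.Agent.Helper18.GP.ExpDisc
import Pool.Agent.Helper24.GPL.DiscLaw

/-!
The discrepancy of a Gibbs law.
-/

set_option autoImplicit false

namespace Pool.Agent.Helper18.GPL

open Finset MeasureTheory Filter Topology
open Pool.Agent.Helper18.GP (gp nm gp_cont gp_lip coeff_zero nm_nonneg kap lam lam_mono one_le_mgf tr_val)
open Pool.Agent.Helper78.KD (tz tr tr_cont tr_mean tr_range)
open Pool.Agent.Helper59.MF (HasLaw HasJoint)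

/-- the pairs of endpoints -/
def Kz : Set (ℝ × ℝ) := {z | 0 ≤ z.1 ∧ z.1 ≤ z.2 ∧ z.2 ≤ 1}

theorem Kz_compact : IsCompact Kz := by
  have h1 : IsCompact (Set.Icc (0 : ℝ) 1 ×ˢ Set.Icc (0 : ℝ) 1) := isCompact_Icc.prod isCompact_Icc
  refine h1.of_isClosed_subset ?_ ?_
  · unfold Kz
    have a1 : IsClosed {z : ℝ × ℝ | 0 ≤ z.1} := isClosed_le continuous_const continuous_fst
    have a2 : IsClosed {z : ℝ × ℝ | z.1 ≤ z.2} := isClosed_le continuous_fst continuous_snd
    have a3 : IsClosed {z : ℝ × ℝ | z.2 ≤ 1} := isClosed_le continuous_snd continuous_const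
    exact a1.inter (a2.inter a3)
  · rintro z ⟨h0, h1, h2⟩
    exact ⟨⟨h0, h1.trans h2⟩, ⟨h0.trans h1, h2⟩⟩

theorem discLaw_ge {g : ℝ → ℝ} (hg : Continuous g) {α β : ℝ} (h0 : 0 ≤ α) (h1 : α ≤ β) (h2 : β ≤ 1) :
    |(∫ t in α..β, g t) - (β - α)| ≤ discLaw g := by
  unfold discLaw
  have hc : Continuous fun z : ℝ × ℝ => |(∫ t in z.1..z.2, g t) - (z.2 - z.1)| := by
    have h3 : Continuous fun x : ℝ => ∫ t in (0 : ℝ)..x, g t :=
      intervalIntegral.continuous_primitive (fun a b => hg.intervalIntegrable a b) 0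
    have h4 : ∀ z : ℝ × ℝ, ∫ t in z.1..z.2, g t = (∫ t in (0 : ℝ)..z.2, g t) - ∫ t in (0 : ℝ)..z.1, g t := fun z =>
      (intervalIntegral.integral_interval_sub_left (hg.intervalIntegrable _ _) (hg.intervalIntegrable _ _)).symm
    simp only [h4]
    have h5 := h3.comp continuous_snd (X := ℝ × ℝ)
    have h6 := h3.comp continuous_fst (X := ℝ × ℝ)
    exact ((h5.sub h6).sub (continuous_snd.sub continuous_fst)).abs
  have hb := (Kz_compact.image hc).bddAbove
  exact le_csSup hb ⟨(α, β), ⟨h0, h1, h2⟩, rfl⟩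

/-- the mean of the trapezoidal function is at most the discrepancy -/
theorem tr_le_disc {η q : ℝ} (h0 : 0 < η) (hq : 0 < q) (hq1 : q + η ≤ 1) {g : ℝ → ℝ} (hg : Continuous g) (hg0 : ∀ t, 0 ≤ g t)
    (h1 : ∫ t in (0 : ℝ)..1, g t = 1) : ∫ t in (0 : ℝ)..1, g t * tr η q (-q) t ≤ discLaw g + η := by
  have hη1 : η ≤ 1 := by linarith
  have htc := tr_cont h0 hη1 q (-q)
  have hc : Continuous fun t => g t * tr η q (-q) t := hg.mul htc
  have hfl : ⌊q⌋ = 0 := by
    rw [Int.floor_eq_iff]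
    constructor <;> push_cast <;> linarith
  have hrange : ∀ t, tr η q (-q) t ≤ 1 - q := fun t => by
    have := tr_range h0 q (-q) t
    rw [hfl] at this
    push_cast at this
    linarith [this.2]
  have s1 := intervalIntegral.integral_add_adjacent_intervals (hc.intervalIntegrable (μ := volume) 0 (q + η))
    (hc.intervalIntegrable (μ := volume) (q + η) 1)
  have s2 := intervalIntegral.integral_add_adjacent_intervals (hg.intervalIntegrable (μ := volume) 0 (q + η))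
    (hg.intervalIntegrable (μ := volume) (q + η) 1)
  have g1 : ∫ t in (0 : ℝ)..(q + η), g t * tr η q (-q) t ≤ ∫ t in (0 : ℝ)..(q + η), g t * (1 - q) :=
    intervalIntegral.integral_mono_on (by linarith) (hc.intervalIntegrable _ _)
      (Continuous.intervalIntegrable (by fun_prop) _ _) fun t _ => mul_le_mul_of_nonneg_left (hrange t) (hg0 t)
  have g2 : ∫ t in (q + η)..1, g t * tr η q (-q) t = ∫ t in (q + η)..1, g t * (-q) := by
    refine intervalIntegral.integral_congr_ae ?_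
    have : ∀ᵐ t : ℝ, t ≠ 1 := by
      rw [ae_iff]
      simp
    filter_upwards [this] with t ht hmem
    rw [Set.uIoc_of_le hq1] at hmem
    rw [tr_val h0 hq hmem.1.le (lt_of_le_of_ne hmem.2 ht)]
  rw [intervalIntegral.integral_mul_const] at g1 g2
  have g3 := (le_abs_self _).trans (discLaw_ge hg (α := 0) (β := q + η) le_rfl (by linarith) hq1)
  rw [sub_zero] at g3
  rw [← s1, g2]
  rw [h1] at s2
  obtain ⟨X, hX⟩ : ∃ X : ℝ, X = ∫ t in (0 : ℝ)..(q + η), g t := ⟨_, rfl⟩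
  obtain ⟨Y, hY⟩ : ∃ Y : ℝ, Y = ∫ t in (q + η)..1, g t := ⟨_, rfl⟩
  rw [← hX] at g1 g3 s2
  rw [← hY] at s2 ⊢
  have h4 : X * (1 - q) + Y * (-q) = X - q := by
    have : Y = 1 - X := by linarith
    rw [this]
    ring
  linarith

/-- **The Gibbs law with a given discrepancy.** -/
theorem exists_disc {p : ℝ → ℝ} (hpc : Continuous p) (hpm : ∫ t in (0 : ℝ)..1, p t = 0)
    {n : ℕ} {Θ y E : ℝ} (hΘ : 0 ≤ Θ)
    (hq : ∀ θ, 0 ≤ θ → θ ≤ Θ → ∀ t, |θ * p t| ≤ y) (hy : y ≤ 1 / 4) (hE : 2 * y ^ (n + 1) ≤ E) (hE1 : E ≤ 1 / 8)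
    {δ : ℝ} (hδ : 0 ≤ δ) (hbig : δ ≤ discLaw (gT p n Θ)) :
    ∃ θ, 0 ≤ θ ∧ θ ≤ Θ ∧ discLaw (gT p n θ) = δ := by
  obtain ⟨cl, hcl⟩ : ∃ cl : ℝ → ℝ, cl = fun θ => max 0 (min θ Θ) := ⟨_, rfl⟩
  have hclc : Continuous cl := by
    rw [hcl]
    fun_prop
  have hcl0 : ∀ θ, 0 ≤ cl θ := fun θ => by rw [hcl]; exact le_max_left _ _
  have hcl1 : ∀ θ, cl θ ≤ Θ := fun θ => by rw [hcl]; exact max_le hΘ (min_le_right _ _)
  have hclid : ∀ θ, 0 ≤ θ → θ ≤ Θ → cl θ = θ := fun θ h0 h1 => by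
    rw [hcl]
    simp only
    rw [min_eq_left h1, max_eq_right h0]
  have hmp : ∀ θ, mT p n (cl θ) ≠ 0 := fun θ => by
    have := mT_pos hpc hpm (hq _ (hcl0 θ) (hcl1 θ)) hy hE hE1
    linarith
  have hf : Continuous fun w : ℝ × (ℝ × ℝ) => |(∫ t in w.2.1..w.2.2, gT p n (cl w.1) t) - (w.2.2 - w.2.1)| := by
    have h1 : Continuous (Function.uncurry fun θ t => Tp p n (cl θ) t) := by
      have h2 := Tp_cont2 hpc n
      exact h2.comp ((hclc.comp continuous_fst).prodMk continuous_snd)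
    have h2 : Continuous fun z : ℝ × ℝ => ∫ t in (0 : ℝ)..z.2, Tp p n (cl z.1) t :=
      intervalIntegral.continuous_parametric_primitive_of_continuous h1
    have h3 : ∀ w : ℝ × (ℝ × ℝ), ∫ t in w.2.1..w.2.2, gT p n (cl w.1) t =
        ((∫ t in (0 : ℝ)..w.2.2, Tp p n (cl w.1) t) - ∫ t in (0 : ℝ)..w.2.1, Tp p n (cl w.1) t) / mT p n (cl w.1) := by
      intro w
      have hT := Tp_cont hpc n (cl w.1)
      rw [intervalIntegral.integral_interval_sub_left (hT.intervalIntegrable _ _) (hT.intervalIntegrable _ _),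
        ← intervalIntegral.integral_div]
      rfl
    simp only [h3]
    have h4 : Continuous fun w : ℝ × (ℝ × ℝ) => ∫ t in (0 : ℝ)..w.2.2, Tp p n (cl w.1) t :=
      h2.comp (continuous_fst.prodMk (continuous_snd.comp continuous_snd))
    have h5 : Continuous fun w : ℝ × (ℝ × ℝ) => ∫ t in (0 : ℝ)..w.2.1, Tp p n (cl w.1) t :=
      h2.comp (continuous_fst.prodMk (continuous_fst.comp continuous_snd))
    have h6 : Continuous fun w : ℝ × (ℝ × ℝ) => mT p n (cl w.1) := (mT_cont hpc n).comp (hclc.comp continuous_fst)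
    exact (((h4.sub h5).div h6 fun w => hmp w.1).sub
      ((continuous_snd.comp continuous_snd).sub (continuous_fst.comp continuous_snd))).abs
  have hD : Continuous fun θ => discLaw (gT p n (cl θ)) :=
    Kz_compact.continuous_sSup (f := fun (θ : ℝ) (z : ℝ × ℝ) => |(∫ t in z.1..z.2, gT p n (cl θ) t) - (z.2 - z.1)|) hf
  have hD0 : discLaw (gT p n (cl 0)) = 0 := by
    rw [hclid 0 le_rfl hΘ]
    have h1 : ∀ t, Tp p n 0 t = 1 := by
      intro t
      unfold Tp
      rw [Finset.sum_range_succ']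
      simp
    have h2 : ∀ t, gT p n 0 t = 1 := by
      intro t
      unfold gT mT
      simp only [h1]
      simp
    unfold discLaw
    have h3 : ((fun z : ℝ × ℝ => |(∫ t in z.1..z.2, gT p n 0 t) - (z.2 - z.1)|) '' {z | 0 ≤ z.1 ∧ z.1 ≤ z.2 ∧ z.2 ≤ 1}) = {0} := by
      ext r
      constructor
      · rintro ⟨z, -, rfl⟩
        simp only [h2, intervalIntegral.integral_const, smul_eq_mul, mul_one, sub_self, abs_zero]
        rfl
      · rintro rfl
        exact ⟨(0, 1), ⟨le_rfl, zero_le_one, le_rfl⟩, by simp [h2]⟩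
    rw [h3, csSup_singleton]
  have hDΘ : δ ≤ discLaw (gT p n (cl Θ)) := by
    rw [hclid Θ hΘ le_rfl]
    exact hbig
  have hD00 : discLaw (gT p n (cl 0)) ≤ δ := by
    rw [hD0]
    exact hδ
  obtain ⟨θ, hθ, hθv⟩ := intermediate_value_Icc hΘ hD.continuousOn
    (show δ ∈ Set.Icc (discLaw (gT p n (cl 0))) (discLaw (gT p n (cl Θ))) from ⟨hD00, hDΘ⟩)
  refine ⟨θ, hθ.1, hθ.2, ?_⟩
  change discLaw (gT p n (cl θ)) = δ at hθv
  rwa [hclid θ hθ.1 hθ.2] at hθv

end Pool.Agent.Helper18.GPL
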