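import Pool.Agent.Helper18.GP.TrigU
import Pool.Agent.Helper18.GP.Wien
import Pool.Agent.Helper59.GP.Weyl
import Pool.Agent.Helper59.GP.Mean

/-!
The upper bounds, uniformly in all intervals `(a, b)` with `a ≥ a₀`.
-/

set_option autoImplicit false

namespace Pool.Agent.Helper18.GPL

open Finset Filter Topology MeasureTheory
open Pool.Agent.Helper59.GP (rateL rate_attained lip_K lip_cont phi_bd sp_sub_le cs cs_cont cs_per cs_lip cs_mean cs_sq cs_rate
  cs_eq_re cs_abs_le exp_eq_e exists_dir)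
open Pool.Agent.Helper78.KD (freq_of_limsup liminf_of_event dimH_finset freq_finset)
open Pool.Agent.Helper18.GP (gp nm gp_cont gp_lip coeff_zero nm_nonneg kap kap_inv lam lam_mono upper_tp Sp dexp_small)
open Pool.Agent.Helper18.GPW (lip_wien)
open Pool.Agent.Helper82.FK (e)

/-- upper bound for the dimension of `{x ∈ (a, b) : δ ≤ limsup F x}` -/
def DimUp (a b : ℝ) (F : ℝ → ℕ → ℝ) (δ r ε : ℝ) : Prop :=
  dimH {x | x ∈ Set.Ioo a b ∧ δ ≤ limsup (F x) atTop} ≤ ENNReal.ofReal (1 - (r - ε) / Real.log b)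

theorem DimUp.mono {a b : ℝ} {F : ℝ → ℕ → ℝ} {δ r ε ε' : ℝ} (h : DimUp a b F δ r ε) (hb : 1 < b) (hε : ε ≤ ε') :
    DimUp a b F δ r ε' := by
  have hlb : 0 < Real.log b := Real.log_pos hb
  refine h.trans (ENNReal.ofReal_le_ofReal ?_)
  have := div_le_div_of_nonneg_right (show r - ε' ≤ r - ε by linarith) hlb.le
  linarith

theorem lin_small {c C : ℝ} (hc : 0 < c) (hC : 3 ≤ C) : ∃ δ₀ : ℝ, 0 < δ₀ ∧ ∀ δ, 0 < δ → δ ≤ δ₀ →
    C * δ ≤ 1 ∧ C ≤ c / δ ∧ C * Real.exp (-(c / δ)) ≤ δ ∧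
    C * Real.exp (-(c / δ)) ≤ Real.exp (-((c / 2) / δ)) := by
  refine ⟨min (min (1 / C) (c / (2 * C))) (c ^ 2 / (4 * C)), by positivity, fun δ h0 hδ => ?_⟩
  have hC0 : 0 < C := by linarith
  have h1 : δ ≤ 1 / C := hδ.trans ((min_le_left _ _).trans (min_le_left _ _))
  have h2 : δ ≤ c / (2 * C) := hδ.trans ((min_le_left _ _).trans (min_le_right _ _))
  have h3 : δ ≤ c ^ 2 / (4 * C) := hδ.trans (min_le_right _ _)
  obtain ⟨v, hv⟩ : ∃ v : ℝ, v = (c / 2) / δ := ⟨_, rfl⟩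
  have hv2 : c / δ = 2 * v := by rw [hv]; ring
  have hCv : C ≤ v := by
    rw [hv, le_div_iff₀ h0]
    rw [le_div_iff₀ (by positivity)] at h2
    linarith
  have hv0 : 0 < v := by linarith
  rw [hv2, ← hv]
  refine ⟨?_, by linarith, ?_, ?_⟩
  · rw [le_div_iff₀ hC0] at h1
    linarith
  · have h4 : Real.exp (-(2 * v)) ≤ 1 / v ^ 2 := by
      have h5 : Real.exp (-v) ≤ 1 / v := by
        rw [Real.exp_neg, ← one_div]
        exact one_div_le_one_div_of_le hv0 (by linarith [Real.add_one_le_exp v])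
      have h6 : Real.exp (-(2 * v)) = Real.exp (-v) ^ 2 := by
        rw [← Real.exp_nat_mul]
        congr 1
        push_cast
        ring
      rw [h6]
      refine (pow_le_pow_left₀ (Real.exp_pos _).le h5 2).trans (le_of_eq ?_)
      rw [div_pow, one_pow]
    have h6 : 1 / v ^ 2 = 4 * δ ^ 2 / c ^ 2 := by
      rw [hv]
      field_simp
      norm_num
    have h7 : C * (4 * δ ^ 2 / c ^ 2) ≤ δ := by
      rw [mul_div_assoc', div_le_iff₀ (by positivity)]
      rw [le_div_iff₀ (by positivity)] at h3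
      have h8 := mul_le_mul_of_nonneg_left h3 h0.le
      linarith
    have h8 : C * Real.exp (-(2 * v)) ≤ C * (4 * δ ^ 2 / c ^ 2) := mul_le_mul_of_nonneg_left (h4.trans h6.le) hC0.le
    linarith
  · have h4 : C ≤ Real.exp v := by linarith [Real.add_one_le_exp v]
    calc C * Real.exp (-(2 * v)) ≤ Real.exp v * Real.exp (-(2 * v)) :=
          mul_le_mul_of_nonneg_right h4 (Real.exp_pos _).le
      _ = Real.exp (-v) := by
        rw [← Real.exp_add]
        congr 1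
        ring

theorem gp_cs {m : ℕ} (hm : 1 ≤ m) (t : ℝ) :
    gp m (fun k => if k = (m : ℤ) then 1 / 2 else if k = -(m : ℤ) then 1 / 2 else 0) t = cs m t := by
  have hne : (m : ℤ) ≠ -(m : ℤ) := by omega
  have h1 : gp m (fun k => if k = (m : ℤ) then 1 / 2 else if k = -(m : ℤ) then 1 / 2 else 0) t =
      1 / 2 * e (m * t) + 1 / 2 * e (-(m * t)) := by
    unfold gp
    rw [← Finset.sum_subset (s₁ := {(m : ℤ), -(m : ℤ)}), Finset.sum_pair hne]
    · simp only [if_pos, hne.symm, if_false]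
      push_cast
      rw [neg_mul]
    · intro k hk
      simp only [Finset.mem_insert, Finset.mem_singleton] at hk
      rw [Finset.mem_Icc]
      omega
    · intro k _ hk
      simp only [Finset.mem_insert, Finset.mem_singleton, not_or] at hk
      simp [hk.1, hk.2]
  rw [h1, cs_eq_re]
  have h2 : e (-(m * t)) = (starRingEnd ℂ) (e (m * t)) := by
    unfold Pool.Agent.Helper82.FK.e
    rw [← Complex.exp_conj]
    congr 1
    simp only [map_mul, Complex.conj_I, Complex.conj_ofReal]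
    push_cast
    ring
  rw [h2]
  have h3 := Complex.add_conj (e (m * t))
  push_cast at h3
  linear_combination (1 / 2) * h3

theorem lip_up {φ : ℝ → ℝ} {K : ℝ} (hper : ∀ t, φ (t + 1) = φ t)
    (hlip : ∀ s t, |φ s - φ t| ≤ K * |s - t|) (hmean : ∫ t in (0:ℝ)..1, φ t = 0)
    (hne : ∃ t, φ t ≠ 0) {a₀ : ℝ} (ha : 1 < a₀) :
    ∃ k δ₀ : ℝ, 0 < k ∧ 0 < δ₀ ∧ ∀ a b δ : ℝ, a₀ ≤ a → a < b → 0 < δ → δ ≤ δ₀ →
      ∀ s : ℕ → ℝ, DimUp a b (fun x N => (∑ n ∈ Finset.range N, φ (x ^ (n + 1) + s n)) / N) δ (rateL φ δ)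
        (Real.exp (-(k / δ))) := by
  have hK := lip_K hlip
  have hφ := lip_cont hlip
  obtain ⟨M, hMdef⟩ : ∃ M : ℝ, M = |φ 0| + K + 1 := ⟨_, rfl⟩
  have hM : 1 ≤ M := by
    have := abs_nonneg (φ 0)
    linarith
  have hb : ∀ t, |φ t| ≤ M := fun t => by
    have := phi_bd hper hlip hK t
    linarith
  obtain ⟨V, hVdef⟩ : ∃ V : ℝ, V = ∫ t in (0:ℝ)..1, φ t ^ 2 := ⟨_, rfl⟩
  have hV0 : 0 < V := by
    rw [hVdef]
    obtain ⟨t, ht⟩ := hne
    have h1 : Function.Periodic φ 1 := hper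
    have h2 : φ (Int.fract t) = φ t := by
      have h3 := h1.sub_zsmul_eq (x := t) ⌊t⌋
      rw [zsmul_eq_mul, mul_one] at h3
      exact h3
    refine intervalIntegral.integral_pos (by norm_num) (by fun_prop) (fun x _ => sq_nonneg _)
      ⟨Int.fract t, ⟨Int.fract_nonneg t, (Int.fract_lt_one t).le⟩, ?_⟩
    rw [h2]
    positivity
  have hVM : V ≤ M ^ 2 := by
    rw [hVdef]
    have h1 : ∫ t in (0:ℝ)..1, φ t ^ 2 ≤ ∫ _ in (0:ℝ)..1, M ^ 2 :=
      intervalIntegral.integral_mono_on (by norm_num) (Continuous.intervalIntegrable (by fun_prop) _ _)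
        (by simp) fun t _ => by
          rw [← sq_abs (φ t)]
          exact pow_le_pow_left₀ (abs_nonneg _) (hb t) 2
    simpa using h1
  obtain ⟨A', hA'1, hA'⟩ := lip_wien hper hlip hmean
  have hA'0 : (1 : ℝ) ≤ A' := by exact_mod_cast hA'1
  obtain ⟨A, hAdef⟩ : ∃ A : ℝ, A = M + 1 + 32 / V + A' := ⟨_, rfl⟩
  have hAV0 : 0 < 32 / V := by positivity
  have hA1 : 1 ≤ A := by linarith
  have hA0 : 0 < A := by linarith
  have hAM : M + 1 ≤ A := by linarith
  have hAA' : (A' : ℝ) ≤ A := by linarith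
  have hAV : 32 ≤ A * V := by
    have : 32 / V ≤ A := by linarith
    rwa [div_le_iff₀ hV0] at this
  -- the constant
  obtain ⟨C', hC'⟩ : ∃ C' : ℝ, C' = 2 * A * A + 2 := ⟨_, rfl⟩
  have hC'0 : 0 < C' := by
    rw [hC']
    positivity
  obtain ⟨c₁, hc₁, hkap⟩ := kap_inv ha hC'0
  obtain ⟨k, hk⟩ : ∃ k : ℝ, k = c₁ / (A' + 3) := ⟨_, rfl⟩
  have hk0 : 0 < k := by rw [hk]; positivity
  obtain ⟨C, hC⟩ : ∃ C : ℝ, C = 200 * A ^ 5 + 3 + 32 * M ^ 3 / V ^ 2 + 1 / c₁ + 8 * M / V := ⟨_, rfl⟩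
  have hA5 : (1 : ℝ) ≤ A ^ 5 := one_le_pow₀ hA1
  have hMV : 0 < 32 * M ^ 3 / V ^ 2 := by positivity
  have hMV2 : 0 < 8 * M / V := by positivity
  have hic : 0 < 1 / c₁ := by positivity
  have hC3 : 3 ≤ C := by linarith
  obtain ⟨δ₀, hδ₀, hsm⟩ := lin_small (c := k) (C := C) hk0 hC3
  refine ⟨k / 2, δ₀, by positivity, hδ₀, ?_⟩
  intro a b δ haa hab' h0 hδ s
  obtain ⟨e1, e2, e3, e4⟩ := hsm δ h0 hδ
  obtain ⟨L, hL⟩ : ∃ L : ℝ, L = k / δ := ⟨_, rfl⟩
  obtain ⟨η, hη⟩ : ∃ η : ℝ, η = Real.exp (-L) := ⟨_, rfl⟩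
  rw [← hL] at e2
  rw [← hL, ← hη] at e3 e4
  have hη0 : 0 < η := by rw [hη]; exact Real.exp_pos _
  have hCA : 200 * A ^ 5 ≤ C := by linarith
  have hCM : 32 * M ^ 3 / V ^ 2 ≤ C := by linarith
  have hCMV : 8 * M / V ≤ C := by linarith
  have hCc : 1 / c₁ ≤ C := by linarith
  have hL3 : 3 ≤ L := hC3.trans e2
  have hδA : 200 * A ^ 5 * δ ≤ 1 := (mul_le_mul_of_nonneg_right hCA h0.le).trans e1
  have hηA : 200 * A ^ 5 * η ≤ δ := (mul_le_mul_of_nonneg_right hCA hη0.le).trans e3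
  have hA25 : A ^ 2 ≤ A ^ 5 := pow_le_pow_right₀ hA1 (by norm_num)
  have hA35 : A ^ 3 ≤ A ^ 5 := pow_le_pow_right₀ hA1 (by norm_num)
  have hA15 : A ≤ A ^ 5 := le_self_pow₀ hA1 (by norm_num)
  have hA2 : (1 : ℝ) ≤ A ^ 2 := one_le_pow₀ hA1
  have hδ5 := mul_le_mul_of_nonneg_right hA5 h0.le
  have hη5 := mul_le_mul_of_nonneg_right hA5 hη0.le
  have hδ200 : 200 * δ ≤ 1 := by linarith
  have hη200 : 200 * η ≤ δ := by linarith
  have hAδ1 : A * δ ≤ 1 := by
    have := mul_le_mul_of_nonneg_right hA15 h0.le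
    linarith
  have hδc : δ ≤ c₁ := by
    have h1 := (mul_le_mul_of_nonneg_right hCc h0.le).trans e1
    rw [one_div, inv_mul_le_iff₀ hc₁] at h1
    linarith
  have hd3 : δ * (32 * M ^ 3) ≤ V ^ 2 := by
    have h1 := (mul_le_mul_of_nonneg_right hCM h0.le).trans e1
    rw [div_mul_eq_mul_div, div_le_iff₀ (by positivity)] at h1
    linarith
  have hd4 : 8 * M * δ ≤ V := by
    have h1 := (mul_le_mul_of_nonneg_right hCMV h0.le).trans e1
    rw [div_mul_eq_mul_div, div_le_iff₀ hV0] at h1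
    linarith
  have hlb : 0 < Real.log b := Real.log_pos (by linarith)
  have hη12 : η ≤ 1 / 2 := by linarith
  obtain ⟨H, c, p, hp, hc0, hHη, hnmA, hpφ⟩ := hA' η hη0 hη12
  have hnm0 := nm_nonneg H c
  have hpc : Continuous p := by
    have h4 : p = fun t => (gp H c t).re := by
      funext t
      rw [hp t, Complex.ofReal_re]
    rw [h4]
    exact Complex.continuous_re.comp (gp_cont H c)
  have hpm : ∫ t in (0 : ℝ)..1, p t = 0 := by
    have := coeff_zero hp
    rw [hc0] at this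
    exact_mod_cast this.symm
  have hplip := gp_lip hp
  have hpK : 0 ≤ 2 * Real.pi * H * nm H c := by
    have := Real.pi_pos
    positivity
  have hbA : ∀ t, |p t| ≤ A := fun t => by
    have h1 := hb t
    have h2 := hpφ t
    have h3 : |p t| ≤ |φ t| + |p t - φ t| := by
      have h4 : p t = φ t + (p t - φ t) := by ring
      calc |p t| = |φ t + (p t - φ t)| := by rw [← h4]
        _ ≤ _ := abs_add_le _ _
    linarith
  obtain ⟨⟨θ, hθ0, hθA, hθ⟩, hrate⟩ := rate_attained hφ hb hM hmean hV0 hVM hVdef.le (A := A) (by linarith)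
    hA0.le h0 hd3
  have hAη : ∀ θ' : ℝ, θ' ≤ A * δ → 3 * (θ' * η) ≤ 3 * η := by
    intro θ' h1
    have h2 := mul_le_mul_of_nonneg_right (h1.trans hAδ1) hη0.le
    linarith
  -- the degree of the Taylor polynomial
  obtain ⟨n, hn⟩ : ∃ n : ℕ, n = ⌈L⌉₊ := ⟨_, rfl⟩
  have hn1 : L ≤ n := by rw [hn]; exact Nat.le_ceil L
  have hn2 : (n : ℝ) ≤ L + 1 := by rw [hn]; exact (Nat.ceil_lt_add_one (by linarith)).le
  have hnpos : 1 ≤ n := by
    have : (0 : ℝ) < n := by linarith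
    exact_mod_cast this
  have hHL : (H : ℝ) ≤ Real.exp (A' * L) := by
    refine hHη.trans (le_of_eq ?_)
    rw [hη, one_div, ← Real.exp_neg, neg_neg, ← Real.exp_nat_mul]
  have hLL : Real.exp (c₁ / δ) = Real.exp (A' * L) * Real.exp L ^ 3 := by
    rw [← Real.exp_nat_mul, ← Real.exp_add]
    congr 1
    rw [hL, hk]
    push_cast
    field_simp
  have heL := Real.add_one_le_exp L
  have heA : 1 ≤ Real.exp (A' * L) := Real.one_le_exp (by positivity)
  have hD1 : (1 : ℝ) ≤ ((n * (H + 1) + 1 : ℕ) : ℝ) := by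
    push_cast
    have : (0 : ℝ) ≤ (n : ℝ) * (H + 1) := by positivity
    linarith
  have hD2 : ((n * (H + 1) + 1 : ℕ) : ℝ) ≤ Real.exp (c₁ / δ) := by
    rw [hLL]
    push_cast
    have h1 : (n : ℝ) * (H + 1) ≤ Real.exp L * (2 * Real.exp (A' * L)) :=
      mul_le_mul (by linarith) (by linarith) (by positivity) (Real.exp_pos _).le
    have h2 : (1 : ℝ) * 1 ≤ Real.exp L * Real.exp (A' * L) := mul_le_mul (by linarith) heA (by norm_num) (Real.exp_pos _).le
    have h3 : (3 : ℝ) ≤ Real.exp L ^ 2 := by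
      have h4 : (4 : ℝ) ≤ Real.exp L := by linarith
      have h5 := pow_le_pow_left₀ (by norm_num) h4 2
      linarith
    have h4 : Real.exp L * Real.exp (A' * L) * 3 ≤ Real.exp L * Real.exp (A' * L) * Real.exp L ^ 2 :=
      mul_le_mul_of_nonneg_left h3 (by positivity)
    have h5 : Real.exp L * Real.exp (A' * L) * Real.exp L ^ 2 = Real.exp (A' * L) * Real.exp L ^ 3 := by ring
    linarith
  have hkU := hkap c₁ δ hc₁ le_rfl h0 hδc _ hD1 hD2
  -- the size of the error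
  obtain ⟨y, hy⟩ : ∃ y : ℝ, y = 2 * A ^ 2 * δ := ⟨_, rfl⟩
  have hy0 : 0 < y := by rw [hy]; positivity
  have hy100 : y ≤ 1 / 100 := by
    rw [hy]
    have := mul_le_mul_of_nonneg_right hA25 h0.le
    linarith
  have hy1 : y ≤ 1 := by linarith
  have hsq : Real.exp (-2) ≥ 1 / 10 := by
    have h4 := Real.exp_one_lt_d9
    have h5 : Real.exp (-2) = ((Real.exp 1) ^ 2)⁻¹ := by
      rw [← Real.exp_nat_mul, ← Real.exp_neg]
      norm_num
    rw [h5, ge_iff_le, ← one_div]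
    refine one_div_le_one_div_of_le (by positivity) ?_
    have h6 : Real.exp 1 ≤ 3 := by linarith
    have h7 := pow_le_pow_left₀ (Real.exp_pos 1).le h6 2
    linarith
  have hyn : y ^ (n + 1) ≤ η ^ 2 / 100 := by
    have h1 : y ^ (n + 1) ≤ (Real.exp (-2) / 10) ^ (n + 1) := pow_le_pow_left₀ hy0.le (by linarith) _
    have h2 : (Real.exp (-2) / 10) ^ (n + 1) ≤ η ^ 2 / 100 := by
      rw [div_pow, ← Real.exp_nat_mul]
      have h4 : Real.exp (((n + 1 : ℕ) : ℝ) * -2) ≤ η ^ 2 := by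
        rw [hη, ← Real.exp_nat_mul]
        refine Real.exp_le_exp.2 ?_
        push_cast
        linarith
      have h5 : (100 : ℝ) ≤ 10 ^ (n + 1) := by
        have h6 : (10 : ℝ) ^ 2 ≤ 10 ^ (n + 1) := pow_le_pow_right₀ (by norm_num) (by omega)
        norm_num at h6
        exact h6
      exact div_le_div₀ (by positivity) h4 (by norm_num) h5
    exact h1.trans h2
  have hyn0 : 0 < y ^ (n + 1) := by positivity
  have hη1 : η ≤ 1 := by linarith
  have hη2 : η ^ 2 ≤ η := by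
    have := mul_le_mul_of_nonneg_right hη1 hη0.le
    linarith
  have hyn8 : y ^ (n + 1) ≤ 1 / 8 := by linarith
  have hyδ : 4 * y ^ (n + 1) ≤ δ := by linarith
  have hfb : ∀ x : ℝ, ∀ N : ℕ, |(∑ n ∈ Finset.range N, φ (x ^ (n + 1) + s n)) / (N : ℝ)| ≤ M := by
    intro x N
    rcases Nat.eq_zero_or_pos N with h | h
    · subst h
      simp
      linarith
    · have hN : (0:ℝ) < N := by exact_mod_cast h
      rw [abs_div, abs_of_pos hN, div_le_iff₀ hN]
      refine (Finset.abs_sum_le_sum_abs _ _).trans ((Finset.sum_le_sum fun n _ => hb _).trans (le_of_eq ?_))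
      rw [Finset.sum_const, Finset.card_range, nsmul_eq_mul]
      ring
  have h5η : 5 * η ≤ Real.exp (-((k / 2) / δ)) := by
    have h2 := mul_le_mul_of_nonneg_right hCA hη0.le
    linarith
  have haexp : ∀ X : ℝ, a₀ ^ (kap a₀ X) = Real.exp (Real.log a₀ * kap a₀ X) := fun X =>
    Real.rpow_def_of_pos (by linarith) _
  have hWA : 2 * A * δ * nm H c ≤ 2 * A * δ * A := mul_le_mul_of_nonneg_left (hnmA.trans hAA') (by positivity)
  refine DimUp.mono (ε := 5 * η) ?_ (by linarith) h5η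
  have hq : ∀ t, |θ * p t| ≤ y := fun t => by
    rw [abs_mul, abs_of_nonneg hθ0]
    calc θ * |p t| ≤ (A * δ) * A := mul_le_mul hθA (hbA t) (abs_nonneg _) (by positivity)
      _ ≤ y := by
        rw [hy]
        have : 0 ≤ A ^ 2 * δ := by positivity
        linarith
  have hW : Real.exp (θ * nm H c) + 2 * y ^ (n + 1) < a₀ ^ (kap a₀ ((n * (H + 1) + 1 : ℕ) : ℝ)) := by
    have h1 : θ * nm H c ≤ 2 * A * δ * nm H c := by
      refine mul_le_mul_of_nonneg_right ?_ hnm0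
      have : 0 ≤ A * δ := by positivity
      linarith
    have h2 : Real.exp (θ * nm H c) + 2 * y ^ (n + 1) ≤ Real.exp (2 * A * δ * A + δ) := by
      rw [Real.exp_add]
      have h3 := Real.exp_le_exp.2 (h1.trans hWA)
      have h5 := Real.add_one_le_exp δ
      have h6 : 1 ≤ Real.exp (2 * A * δ * A) := Real.one_le_exp (by positivity)
      have h7 := mul_le_mul h6 (le_refl (Real.exp δ - 1)) (by linarith) (by linarith)
      linarith
    refine lt_of_le_of_lt h2 ?_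
    rw [haexp]
    refine Real.exp_lt_exp.2 ?_
    rw [hC'] at hkU
    linarith
  have h1 := upper_tp ha haa hab' hp hc0 hθ0 hq hy0 hy1 n hW s (δ - 2 * η)
  refine (dimH_mono ?_).trans (h1.trans (ENNReal.ofReal_le_ofReal ?_))
  · rintro x ⟨hx, hls⟩
    refine ⟨⟨hx.1.le, hx.2.le⟩, ?_⟩
    have h2 := freq_of_limsup (δ' := δ - η) (hfb x) hls (by linarith)
    refine (h2.and_eventually (eventually_ge_atTop 1)).mono ?_
    rintro N ⟨h3, h4⟩
    have hNr : (0:ℝ) < N := by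
      have : 0 < N := by omega
      exact_mod_cast this
    rw [lt_div_iff₀ hNr] at h3
    have h5 := (abs_le.1 (sp_sub_le hpφ s N x)).1
    have h6 : Sp φ s N x = ∑ n ∈ Finset.range N, φ (x ^ (n + 1) + s n) := rfl
    rw [← h6] at h3
    have h7 : 0 ≤ N * η := by positivity
    linarith
  · have h2 : (rateL φ δ - 5 * η) / Real.log b ≤
        (θ * (δ - 2 * η) - lam p θ - 4 * y ^ (n + 1)) / Real.log b := by
      apply div_le_div_of_nonneg_right _ hlb.le
      have h3 := lam_mono hpc hφ (η := η) (fun t => by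
        have := (abs_le.1 (hpφ t)).2
        linarith) hθ0
      have h4 := hAη θ hθA
      rw [hθ]
      linarith
    linarith

theorem trig_up {H : ℕ} {c : ℤ → ℂ} {φ : ℝ → ℝ} (hp : ∀ t, gp H c t = φ t) (hc0 : c 0 = 0)
    (hne : ∃ t, φ t ≠ 0) {a₀ : ℝ} (ha : 1 < a₀) :
    ∃ k δ₀ : ℝ, 0 < k ∧ 0 < δ₀ ∧ ∀ a b δ : ℝ, a₀ ≤ a → a < b → 0 < δ → δ ≤ δ₀ →
      ∀ s : ℕ → ℝ, DimUp a b (fun x N => (∑ n ∈ Finset.range N, φ (x ^ (n + 1) + s n)) / N) δ (rateL φ δ)
        (Real.exp (-Real.exp (k / δ))) := by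
  have hφ : Continuous φ := by
    have h4 : φ = fun t => (gp H c t).re := by
      funext t
      rw [hp t, Complex.ofReal_re]
    rw [h4]
    exact Complex.continuous_re.comp (gp_cont H c)
  have hmean : ∫ t in (0 : ℝ)..1, φ t = 0 := by
    have := coeff_zero hp
    rw [hc0] at this
    exact_mod_cast this.symm
  have hlip := gp_lip hp
  have hnm0 := nm_nonneg H c
  have hK : 0 ≤ 2 * Real.pi * H * nm H c := by
    have := Real.pi_pos
    positivity
  have hbd : ∀ t, |φ t| ≤ nm H c := by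
    intro t
    rw [← Real.norm_eq_abs, ← Complex.norm_real, ← hp t]
    unfold gp nm
    refine (norm_sum_le _ _).trans (Finset.sum_le_sum fun k _ => ?_)
    rw [norm_mul, Pool.Agent.Helper82.FK.norm_e, mul_one]
  obtain ⟨M, hMdef⟩ : ∃ M : ℝ, M = nm H c + 1 := ⟨_, rfl⟩
  have hM : 1 ≤ M := by linarith
  have hb : ∀ t, |φ t| ≤ M := fun t => (hbd t).trans (by linarith)
  obtain ⟨V, hVdef⟩ : ∃ V : ℝ, V = ∫ t in (0:ℝ)..1, φ t ^ 2 := ⟨_, rfl⟩
  have hper : Function.Periodic φ 1 := by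
    intro t
    have h1 : ((φ (t + 1) : ℝ) : ℂ) = φ t := by
      rw [← hp, ← hp]
      unfold gp
      refine Finset.sum_congr rfl fun k _ => ?_
      congr 1
      unfold Pool.Agent.Helper82.FK.e
      rw [show ((2 * Real.pi * (k * (t + 1)) : ℝ) : ℂ) * Complex.I =
        ((2 * Real.pi * (k * t) : ℝ) : ℂ) * Complex.I + k * (2 * Real.pi * Complex.I) by push_cast; ring]
      rw [Complex.exp_add, Complex.exp_int_mul_two_pi_mul_I, mul_one]
    exact_mod_cast h1
  have hV0 : 0 < V := by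
    rw [hVdef]
    obtain ⟨t, ht⟩ := hne
    have h2 : φ (Int.fract t) = φ t := by
      have h3 := hper.sub_zsmul_eq (x := t) ⌊t⌋
      rw [zsmul_eq_mul, mul_one] at h3
      exact h3
    refine intervalIntegral.integral_pos (by norm_num) (by fun_prop) (fun x _ => sq_nonneg _)
      ⟨Int.fract t, ⟨Int.fract_nonneg t, (Int.fract_lt_one t).le⟩, ?_⟩
    rw [h2]
    positivity
  have hVM : V ≤ M ^ 2 := by
    rw [hVdef]
    have h1 : ∫ t in (0:ℝ)..1, φ t ^ 2 ≤ ∫ _ in (0:ℝ)..1, M ^ 2 :=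
      intervalIntegral.integral_mono_on (by norm_num) (Continuous.intervalIntegrable (by fun_prop) _ _)
        (by simp) fun t _ => by
          rw [← sq_abs (φ t)]
          exact pow_le_pow_left₀ (abs_nonneg _) (hb t) 2
    simpa using h1
  obtain ⟨A, hAdef⟩ : ∃ A : ℝ, A = M + 16 / V := ⟨_, rfl⟩
  have hAV0 : 0 < 16 / V := by positivity
  have hA1 : 1 ≤ A := by linarith
  have hA0 : 0 < A := by linarith
  have hAM : M ≤ A := by linarith
  have hAV : 16 ≤ A * V := by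
    have : 16 / V ≤ A := by linarith
    rwa [div_le_iff₀ hV0] at this
  have hV16 : 16 / A ≤ ∫ t in (0:ℝ)..1, φ t ^ 2 := by
    rw [← hVdef, div_le_iff₀ hA0]
    linarith
  have hbA : ∀ t, |φ t| ≤ A := fun t => (hb t).trans hAM
  -- the constant
  obtain ⟨C', hC'⟩ : ∃ C' : ℝ, C' = 2 * A * nm H c + 2 := ⟨_, rfl⟩
  have hC'0 : 0 < C' := by
    rw [hC']
    positivity
  obtain ⟨c₁, hc₁, hkap⟩ := kap_inv ha hC'0
  obtain ⟨k, hk⟩ : ∃ k : ℝ, k = c₁ / 2 := ⟨_, rfl⟩
  have hk0 : 0 < k := by rw [hk]; positivity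
  obtain ⟨C, hC⟩ : ∃ C : ℝ, C = 200 * A ^ 5 + 2 * H + 3 + 32 * M ^ 3 / V ^ 2 + 1 / c₁ := ⟨_, rfl⟩
  have hA5 : (1 : ℝ) ≤ A ^ 5 := one_le_pow₀ hA1
  have hH0 : (0 : ℝ) ≤ H := Nat.cast_nonneg H
  have hMV : 0 < 32 * M ^ 3 / V ^ 2 := by positivity
  have hic : 0 < 1 / c₁ := by positivity
  have hC3 : 3 ≤ C := by linarith
  obtain ⟨δ₀, hδ₀, hsm⟩ := dexp_small (c := k) (C := C) hk0 hC3
  refine ⟨k / 2, δ₀, by positivity, hδ₀, ?_⟩
  intro a b δ haa hab' h0 hδ s
  obtain ⟨e1, e2, e3, e4⟩ := hsm δ h0 hδ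
  obtain ⟨L, hL⟩ : ∃ L : ℝ, L = Real.exp (k / δ) := ⟨_, rfl⟩
  obtain ⟨η, hη⟩ : ∃ η : ℝ, η = Real.exp (-L) := ⟨_, rfl⟩
  rw [← hL, ← hη] at e3 e4
  have hη0 : 0 < η := by rw [hη]; exact Real.exp_pos _
  have hLC : C ≤ L := by
    refine e2.trans ?_
    rw [hL]
    refine Real.exp_le_exp.2 ?_
    refine div_le_div_of_nonneg_right ?_ h0.le
    linarith
  have hCA : 200 * A ^ 5 ≤ C := by linarith
  have hCH : 2 * (H : ℝ) + 3 ≤ C := by linarith
  have hCM : 32 * M ^ 3 / V ^ 2 ≤ C := by linarith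
  have hCc : 1 / c₁ ≤ C := by linarith
  have hL3 : 3 ≤ L := hC3.trans hLC
  have hLH : 2 * (H : ℝ) + 3 ≤ L := hCH.trans hLC
  have hδA : 200 * A ^ 5 * δ ≤ 1 := (mul_le_mul_of_nonneg_right hCA h0.le).trans e1
  have hηA : 200 * A ^ 5 * η ≤ δ := (mul_le_mul_of_nonneg_right hCA hη0.le).trans e3
  have hA25 : A ^ 2 ≤ A ^ 5 := pow_le_pow_right₀ hA1 (by norm_num)
  have hA35 : A ^ 3 ≤ A ^ 5 := pow_le_pow_right₀ hA1 (by norm_num)
  have hA15 : A ≤ A ^ 5 := le_self_pow₀ hA1 (by norm_num)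
  have hA2 : (1 : ℝ) ≤ A ^ 2 := one_le_pow₀ hA1
  have hδ5 := mul_le_mul_of_nonneg_right hA5 h0.le
  have hη5 := mul_le_mul_of_nonneg_right hA5 hη0.le
  have hδ200 : 200 * δ ≤ 1 := by linarith
  have hη200 : 200 * η ≤ δ := by linarith
  have hδc : δ ≤ c₁ := by
    have h1 := (mul_le_mul_of_nonneg_right hCc h0.le).trans e1
    rw [one_div, inv_mul_le_iff₀ hc₁] at h1
    linarith
  have hd3 : δ * (32 * M ^ 3) ≤ V ^ 2 := by
    have h1 := (mul_le_mul_of_nonneg_right hCM h0.le).trans e1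
    rw [div_mul_eq_mul_div, div_le_iff₀ (by positivity)] at h1
    linarith
  have hlb : 0 < Real.log b := Real.log_pos (by linarith)
  obtain ⟨⟨θ, hθ0, hθA, hθ⟩, hrate⟩ := rate_attained hφ hb hM hmean hV0 hVM hVdef.le (A := A) (by linarith)
    hA0.le h0 hd3
  -- the degree of the Taylor polynomial
  obtain ⟨n, hn⟩ : ∃ n : ℕ, n = ⌈L⌉₊ := ⟨_, rfl⟩
  have hn1 : L ≤ n := by rw [hn]; exact Nat.le_ceil L
  have hn2 : (n : ℝ) ≤ L + 1 := by rw [hn]; exact (Nat.ceil_lt_add_one (by linarith)).le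
  have hnpos : 1 ≤ n := by
    have : (0 : ℝ) < n := by linarith
    exact_mod_cast this
  have hLL : Real.exp (c₁ / δ) = L ^ 2 := by
    rw [hL, ← Real.exp_nat_mul]
    congr 1
    rw [hk]
    push_cast
    ring
  have hD1 : (1 : ℝ) ≤ ((n * (H + 1) + 1 : ℕ) : ℝ) := by
    push_cast
    have : (0 : ℝ) ≤ (n : ℝ) * (H + 1) := by positivity
    linarith
  have hL2 := mul_le_mul_of_nonneg_right hLH (show 0 ≤ L by linarith)
  have hD2 : ((n * (H + 1) + 1 : ℕ) : ℝ) ≤ Real.exp (c₁ / δ) := by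
    rw [hLL]
    push_cast
    have h1 : (n : ℝ) * (H + 1) ≤ (L + 1) * (H + 1) := mul_le_mul_of_nonneg_right hn2 (by positivity)
    have h2 : (1 : ℝ) * (H + 1) ≤ L * (H + 1) := mul_le_mul_of_nonneg_right (by linarith) (by positivity)
    linarith
  have hkU := hkap c₁ δ hc₁ le_rfl h0 hδc _ hD1 hD2
  -- the size of the error
  obtain ⟨y, hy⟩ : ∃ y : ℝ, y = 2 * A ^ 2 * δ := ⟨_, rfl⟩
  have hy0 : 0 < y := by rw [hy]; positivity
  have hy100 : y ≤ 1 / 100 := by
    rw [hy]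
    have := mul_le_mul_of_nonneg_right hA25 h0.le
    linarith
  have hy1 : y ≤ 1 := by linarith
  have hsq : Real.exp (-2) ≥ 1 / 10 := by
    have h4 := Real.exp_one_lt_d9
    have h5 : Real.exp (-2) = ((Real.exp 1) ^ 2)⁻¹ := by
      rw [← Real.exp_nat_mul, ← Real.exp_neg]
      norm_num
    rw [h5, ge_iff_le, ← one_div]
    refine one_div_le_one_div_of_le (by positivity) ?_
    have h6 : Real.exp 1 ≤ 3 := by linarith
    have h7 := pow_le_pow_left₀ (Real.exp_pos 1).le h6 2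
    linarith
  have hyn : y ^ (n + 1) ≤ η ^ 2 / 100 := by
    have h1 : y ^ (n + 1) ≤ (Real.exp (-2) / 10) ^ (n + 1) := pow_le_pow_left₀ hy0.le (by linarith) _
    have h2 : (Real.exp (-2) / 10) ^ (n + 1) ≤ η ^ 2 / 100 := by
      rw [div_pow, ← Real.exp_nat_mul]
      have h4 : Real.exp (((n + 1 : ℕ) : ℝ) * -2) ≤ η ^ 2 := by
        rw [hη, ← Real.exp_nat_mul]
        refine Real.exp_le_exp.2 ?_
        push_cast
        linarith
      have h5 : (100 : ℝ) ≤ 10 ^ (n + 1) := by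
        have h6 : (10 : ℝ) ^ 2 ≤ 10 ^ (n + 1) := pow_le_pow_right₀ (by norm_num) (by omega)
        norm_num at h6
        exact h6
      exact div_le_div₀ (by positivity) h4 (by norm_num) h5
    exact h1.trans h2
  have hyn0 : 0 < y ^ (n + 1) := by positivity
  have hη1 : η ≤ 1 := by linarith
  have hη2 : η ^ 2 ≤ η := by
    have := mul_le_mul_of_nonneg_right hη1 hη0.le
    linarith
  have hyn8 : y ^ (n + 1) ≤ 1 / 8 := by linarith
  have hyδ : 4 * y ^ (n + 1) ≤ δ := by linarith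
  have hfb : ∀ x : ℝ, ∀ N : ℕ, |(∑ n ∈ Finset.range N, φ (x ^ (n + 1) + s n)) / (N : ℝ)| ≤ M := by
    intro x N
    rcases Nat.eq_zero_or_pos N with h | h
    · subst h
      simp
      linarith
    · have hN : (0:ℝ) < N := by exact_mod_cast h
      rw [abs_div, abs_of_pos hN, div_le_iff₀ hN]
      refine (Finset.abs_sum_le_sum_abs _ _).trans ((Finset.sum_le_sum fun n _ => hb _).trans (le_of_eq ?_))
      rw [Finset.sum_const, Finset.card_range, nsmul_eq_mul]
      ring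
  have he : (k / 2) / δ = (k / 2) / δ := rfl
  have h4η : 4 * η ≤ Real.exp (-Real.exp ((k / 2) / δ)) := by
    have h1 := mul_le_mul_of_nonneg_right hC3 hη0.le
    have h2 := mul_le_mul_of_nonneg_right hCA hη0.le
    linarith
  have haexp : ∀ X : ℝ, a₀ ^ (kap a₀ X) = Real.exp (Real.log a₀ * kap a₀ X) := fun X =>
    Real.rpow_def_of_pos (by linarith) _
  refine DimUp.mono (ε := 4 * η) ?_ (by linarith) h4η
  have hθ2 : θ ≤ A * δ := hθA
  have hq : ∀ t, |θ * φ t| ≤ y := fun t => by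
    rw [abs_mul, abs_of_nonneg hθ0]
    calc θ * |φ t| ≤ (A * δ) * A := mul_le_mul hθ2 (hbA t) (abs_nonneg _) (by positivity)
      _ ≤ y := by
        rw [hy]
        have : 0 ≤ A ^ 2 * δ := by positivity
        linarith
  have hW : Real.exp (θ * nm H c) + 2 * y ^ (n + 1) < a₀ ^ (kap a₀ ((n * (H + 1) + 1 : ℕ) : ℝ)) := by
    have h1 : θ * nm H c ≤ 2 * A * δ * nm H c := by
      refine mul_le_mul_of_nonneg_right ?_ hnm0
      have : 0 ≤ A * δ := by positivity
      linarith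
    have h2 : Real.exp (θ * nm H c) + 2 * y ^ (n + 1) ≤ Real.exp (2 * A * δ * nm H c + δ) := by
      rw [Real.exp_add]
      have h3 := Real.exp_le_exp.2 h1
      have h5 := Real.add_one_le_exp δ
      have h6 : 1 ≤ Real.exp (2 * A * δ * nm H c) := Real.one_le_exp (by positivity)
      have h7 := mul_le_mul h6 (le_refl (Real.exp δ - 1)) (by linarith) (by linarith)
      linarith
    refine lt_of_le_of_lt h2 ?_
    rw [haexp]
    refine Real.exp_lt_exp.2 ?_
    rw [hC'] at hkU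
    linarith
  have h1 := upper_tp ha haa hab' hp hc0 hθ0 hq hy0 hy1 n hW s (δ - η)
  refine (dimH_mono ?_).trans (h1.trans (ENNReal.ofReal_le_ofReal ?_))
  · rintro x ⟨hx, hls⟩
    refine ⟨⟨hx.1.le, hx.2.le⟩, ?_⟩
    have h2 := freq_of_limsup (δ' := δ - η) (hfb x) hls (by linarith)
    refine (h2.and_eventually (eventually_ge_atTop 1)).mono ?_
    rintro N ⟨h3, h4⟩
    have hNr : (0:ℝ) < N := by
      have : 0 < N := by omega
      exact_mod_cast this
    rw [lt_div_iff₀ hNr] at h3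
    exact h3.le
  · have h2 : (rateL φ δ - 4 * η) / Real.log b ≤
        (θ * (δ - η) - lam φ θ - 4 * y ^ (n + 1)) / Real.log b := by
      apply div_le_div_of_nonneg_right _ hlb.le
      have h3 : θ * η ≤ 1 * η := by
        refine mul_le_mul_of_nonneg_right (hθ2.trans ?_) hη0.le
        have := mul_le_mul_of_nonneg_right hA15 h0.le
        linarith
      rw [hθ]
      linarith
    linarith

theorem weyl_up (m : ℕ) (hm : 1 ≤ m) {a₀ : ℝ} (ha : 1 < a₀) :
    ∃ c δ₀ : ℝ, 0 < c ∧ 0 < δ₀ ∧ ∀ a b δ : ℝ, a₀ ≤ a → a < b → 0 < δ → δ ≤ δ₀ →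
      ∀ s : ℕ → ℝ, DimUp a b (fun x N => ‖∑ n ∈ Finset.range N, Complex.exp (2 * Real.pi * Complex.I *
            ((m * (x ^ (n + 1) + s n) : ℝ) : ℂ))‖ / N) δ (rateL (fun t => Real.cos (2 * Real.pi * t)) δ)
        (Real.exp (-Real.exp (c / δ))) := by
  have hpi := Real.pi_pos
  have hmr : (0:ℝ) < m := by
    have : 0 < m := by omega
    exact_mod_cast this
  have hne : ∃ t, cs m t ≠ 0 := ⟨0, by
    unfold cs
    simp⟩
  have e_norm : ∀ y : ℝ, ‖e y‖ = 1 := Pool.Agent.Helper82.FK.norm_e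
  have e_add := Pool.Agent.Helper82.FK.e_add
  have hc0 : (fun k : ℤ => if k = (m : ℤ) then (1 / 2 : ℂ) else if k = -(m : ℤ) then 1 / 2 else 0) 0 = 0 := by
    have h1 : (0 : ℤ) ≠ m := by omega
    have h2 : (0 : ℤ) ≠ -(m : ℤ) := by omega
    simp only [h1, h2, if_false]
  obtain ⟨c, δ₁, hc, hδ₁, hall⟩ := trig_up (gp_cs hm) hc0 hne ha
  obtain ⟨δ₂, hδ₂, hsm⟩ := dexp_small (c := c) (C := 17) hc (by norm_num)
  refine ⟨c / 2, min (min δ₁ δ₂) (1 / 128), by positivity, by positivity, ?_⟩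
  intro a b δ haa hab' h0 hδ s
  have d1 : δ ≤ δ₁ := hδ.trans ((min_le_left _ _).trans (min_le_left _ _))
  have d3 : δ ≤ δ₂ := hδ.trans ((min_le_left _ _).trans (min_le_right _ _))
  have d2 : δ ≤ 1 / 128 := hδ.trans (min_le_right _ _)
  obtain ⟨f1, f2, f3, f4⟩ := hsm δ h0 d3
  have hδ1 : δ ≤ 1 := by linarith
  have hlb : 0 < Real.log b := Real.log_pos (by linarith)
  rw [← cs_rate hm]
  simp_rw [exp_eq_e]
  obtain ⟨η, hη⟩ : ∃ η : ℝ, η = Real.exp (-Real.exp (c / δ)) := ⟨_, rfl⟩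
  rw [← hη] at f3 f4
  have hη0 : 0 < η := by rw [hη]; exact Real.exp_pos _
  have hηδ : η ≤ δ := by linarith
  -- the norm of the sum
  have hnb : ∀ x : ℝ, ∀ N : ℕ, |‖∑ n ∈ Finset.range N, e (m * (x ^ (n + 1) + s n))‖ / (N : ℝ)| ≤ 1 := by
    intro x N
    rcases Nat.eq_zero_or_pos N with h | h
    · subst h
      simp
    · have hN : (0:ℝ) < N := by exact_mod_cast h
      rw [abs_div, abs_of_pos hN, abs_of_nonneg (norm_nonneg _), div_le_iff₀ hN, one_mul]
      refine (norm_sum_le _ _).trans (le_of_eq ?_)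
      simp [e_norm]
  have hfb : ∀ (s : ℕ → ℝ) (x : ℝ) (N : ℕ), |(∑ n ∈ Finset.range N, cs m (x ^ (n + 1) + s n)) / (N : ℝ)| ≤ 1 := by
    intro s x N
    rcases Nat.eq_zero_or_pos N with h | h
    · subst h
      simp
    · have hN : (0:ℝ) < N := by exact_mod_cast h
      rw [abs_div, abs_of_pos hN, div_le_iff₀ hN]
      refine (Finset.abs_sum_le_sum_abs _ _).trans ((Finset.sum_le_sum fun n _ => cs_abs_le m _).trans (le_of_eq ?_))
      simp
  refine DimUp.mono (ε := 17 * η) ?_ (by linarith) f4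
  obtain ⟨δ', hδ'⟩ : ∃ δ' : ℝ, δ' = δ * (1 - η) := ⟨_, rfl⟩
  have hδ'0 : 0 < δ' := by
    rw [hδ']
    apply mul_pos h0
    linarith
  have hδ'δ : δ' ≤ δ := by
    rw [hδ']
    linarith [mul_pos h0 hη0]
  -- comparison of the rates
  have hcmp : rateL (cs m) δ ≤ rateL (cs m) δ' + 16 * η := by
    obtain ⟨⟨θ, hθ0, hθA, hθ⟩, -⟩ := rate_attained (cs_cont m) (cs_abs_le m) le_rfl (cs_mean hm)
      (V := 1 / 2) (by norm_num) (by norm_num) (cs_sq hm).ge (A := 16) (by norm_num) (by norm_num) h0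
      (by norm_num; linarith)
    obtain ⟨-, h2⟩ := rate_attained (cs_cont m) (cs_abs_le m) le_rfl (cs_mean hm)
      (V := 1 / 2) (by norm_num) (by norm_num) (cs_sq hm).ge (A := 16) (by norm_num) (by norm_num) hδ'0
      (by norm_num; linarith)
    have h3 := h2 θ
    have h4 : θ * (δ - δ') ≤ 16 * η := by
      have h5 : δ - δ' = δ * η := by
        rw [hδ']
        ring
      rw [h5]
      have h6 : θ * (δ * η) ≤ 16 * δ * (δ * η) := mul_le_mul_of_nonneg_right hθA (by positivity)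
      have h7 : δ * (δ * η) ≤ η := by
        have h8 : δ * δ ≤ 1 * 1 := mul_le_mul hδ1 hδ1 h0.le zero_le_one
        have h9 := mul_le_mul_of_nonneg_right h8 hη0.le
        linarith
      linarith
    rw [hθ]
    linarith
  -- the grid
  obtain ⟨M, hM⟩ : ∃ M : ℕ, 4 * Real.pi / η ≤ M := exists_nat_ge _
  have hMr : (0:ℝ) < M := lt_of_lt_of_le (by positivity) hM
  have hM1 : 1 ≤ M := by
    have : 0 < M := by exact_mod_cast hMr
    omega
  have hMη : 2 * Real.pi / M ≤ η / 2 := by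
    rw [div_le_iff₀ hη0] at hM
    rw [div_le_iff₀ hMr]
    linarith
  refine dimH_finset (Finset.range M) (fun j => {x | x ∈ Set.Ioo a b ∧ δ' ≤ limsup (fun N : ℕ =>
    (∑ n ∈ Finset.range N, cs m (x ^ (n + 1) + (fun n => s n + j / (M * m)) n)) / N) atTop}) _ _ ?_ ?_
  · rintro x ⟨hx, hls⟩
    have h1 := freq_of_limsup (δ' := δ * (1 - η / 2)) (hnb x) hls (by linarith [mul_pos h0 hη0])
    have h2 : ∃ᶠ N : ℕ in atTop, ∃ j ∈ Finset.range M, δ' ≤
        (∑ n ∈ Finset.range N, cs m (x ^ (n + 1) + (fun n => s n + j / (M * m)) n)) / N := by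
      refine (h1.and_eventually (eventually_ge_atTop 1)).mono ?_
      rintro N ⟨h3, h4⟩
      have hNr : (0:ℝ) < N := by
        have : 0 < N := by omega
        exact_mod_cast this
      rw [lt_div_iff₀ hNr] at h3
      obtain ⟨j, hj, hjz⟩ := exists_dir (∑ n ∈ Finset.range N, e (m * (x ^ (n + 1) + s n))) hM1
      refine ⟨j, hj, ?_⟩
      rw [le_div_iff₀ hNr]
      have h5 : (e (j / M) * ∑ n ∈ Finset.range N, e (m * (x ^ (n + 1) + s n))).re =
          ∑ n ∈ Finset.range N, cs m (x ^ (n + 1) + (fun n => s n + j / (M * m)) n) := by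
        rw [Finset.mul_sum, Complex.re_sum]
        refine Finset.sum_congr rfl fun n _ => ?_
        rw [cs_eq_re, ← e_add]
        congr 2
        field_simp
        ring
      rw [← h5]
      refine le_trans ?_ hjz
      have h6 : δ * (1 - η / 2) * N * (1 - 2 * Real.pi / M) ≤
          ‖∑ n ∈ Finset.range N, e (m * (x ^ (n + 1) + s n))‖ * (1 - 2 * Real.pi / M) :=
        mul_le_mul_of_nonneg_right h3.le (by linarith)
      refine le_trans ?_ h6
      rw [hδ']
      have h7 : 1 - η ≤ (1 - η / 2) * (1 - 2 * Real.pi / M) := by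
        have h8 : (1 - η / 2) * (1 - η / 2) ≤ (1 - η / 2) * (1 - 2 * Real.pi / M) :=
          mul_le_mul_of_nonneg_left (by linarith) (by linarith)
        linarith [sq_nonneg (η / 2)]
      have h9 : 0 ≤ δ * N := by positivity
      calc δ * (1 - η) * N = δ * N * (1 - η) := by ring
        _ ≤ δ * N * ((1 - η / 2) * (1 - 2 * Real.pi / M)) := mul_le_mul_of_nonneg_left h7 h9
        _ = _ := by ring
    obtain ⟨j, hj, hf⟩ := freq_finset _ _ h2
    refine ⟨j, hj, hx, ?_⟩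
    refine le_limsup_of_frequently_le hf ?_
    exact ⟨1, by
      rw [eventually_map]
      exact Eventually.of_forall fun N => (abs_le.1 (hfb _ x N)).2⟩
  · intro j _
    refine ((hall a b δ' haa hab' hδ'0 (hδ'δ.trans d1) (fun n => s n + j / (M * m)))).trans
      (ENNReal.ofReal_le_ofReal ?_)
    have h2 : (rateL (cs m) δ - 17 * η) / Real.log b ≤
        (rateL (cs m) δ' - Real.exp (-Real.exp (c / δ'))) / Real.log b := by
      apply div_le_div_of_nonneg_right _ hlb.le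
      have h3 : Real.exp (-Real.exp (c / δ')) ≤ η := by
        rw [hη]
        refine Real.exp_le_exp.2 (neg_le_neg (Real.exp_le_exp.2 ?_))
        exact div_le_div_of_nonneg_left hc.le hδ'0 hδ'δ
      linarith
    linarith

end Pool.Agent.Helper18.GPL
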