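import Pool.Agent.Helper18.GPL.Core
import Pool.Agent.Helper18.GPL.Up

/-!
The level sets of the means and of the Weyl sums.
-/

set_option autoImplicit false

namespace Pool.Agent.Helper18.GPL

open Finset MeasureTheory Filter Topology
open Pool.Agent.Helper18.GP (gp nm gp_cont gp_lip coeff_zero nm_nonneg kap lam lam_mono one_le_mgf kap_inv dexp_small)
open Pool.Agent.Helper18.GPW (lip_wien)
open Pool.Agent.Helper59.MF (HasLaw HasJoint)
open Pool.Agent.Helper59.GP (rateL rate_attained lip_K lip_cont phi_bd cs cs_cont cs_per cs_lip cs_mean cs_sq cs_rate cs_eq_re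
  cs_abs_le exp_eq_e)

/-- `1 - (r + ε) / log b ≤ dim {x ∈ (a, b) : lim F x = δ}` and `dim {x ∈ (a, b) : δ ≤ limsup F x} ≤ 1 - (r - ε) / log b` -/
def DimLevel (a b : ℝ) (F : ℝ → ℕ → ℝ) (δ r ε : ℝ) : Prop :=
  ENNReal.ofReal (1 - (r + ε) / Real.log b) ≤ dimH {x | x ∈ Set.Ioo a b ∧ Tendsto (F x) atTop (𝓝 δ)} ∧
  dimH {x | x ∈ Set.Ioo a b ∧ δ ≤ limsup (F x) atTop} ≤ ENNReal.ofReal (1 - (r - ε) / Real.log b)

theorem DimLevel.mono {a b : ℝ} {F : ℝ → ℕ → ℝ} {δ r ε ε' : ℝ} (h : DimLevel a b F δ r ε) (hb : 1 < b) (hε : ε ≤ ε') :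
    DimLevel a b F δ r ε' := by
  have hlb : 0 < Real.log b := Real.log_pos hb
  refine ⟨(ENNReal.ofReal_le_ofReal ?_).trans h.1, h.2.trans (ENNReal.ofReal_le_ofReal ?_)⟩
  · have := div_le_div_of_nonneg_right (show r + ε ≤ r + ε' by linarith) hlb.le
    linarith
  · have := div_le_div_of_nonneg_right (show r - ε' ≤ r - ε by linarith) hlb.le
    linarith

/-- combination of a lower bound for the level set with the upper bound -/
theorem DimLevel.of {a b : ℝ} {F : ℝ → ℕ → ℝ} {δ r ε ε₁ ε₂ : ℝ} (hb : 1 < b)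
    (h1 : ENNReal.ofReal (1 - (r + ε₁) / Real.log b) ≤ dimH {x | x ∈ Set.Ioo a b ∧ Tendsto (F x) atTop (𝓝 δ)})
    (h2 : dimH {x | x ∈ Set.Ioo a b ∧ δ ≤ limsup (F x) atTop} ≤ ENNReal.ofReal (1 - (r - ε₂) / Real.log b))
    (he1 : ε₁ ≤ ε) (he2 : ε₂ ≤ ε) : DimLevel a b F δ r ε := by
  have hlb : 0 < Real.log b := Real.log_pos hb
  refine ⟨(ENNReal.ofReal_le_ofReal ?_).trans h1, h2.trans (ENNReal.ofReal_le_ofReal ?_)⟩
  · have := div_le_div_of_nonneg_right (show r + ε₁ ≤ r + ε by linarith) hlb.le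
    linarith
  · have := div_le_div_of_nonneg_right (show r - ε ≤ r - ε₂ by linarith) hlb.le
    linarith

/-- from the law to the mean -/
theorem mean_of_law {φ g : ℝ → ℝ} (hφ : Continuous φ) (hper : ∀ t, φ (t + 1) = φ t) {δ : ℝ}
    (hg : ∫ t in (0 : ℝ)..1, g t * φ t = δ) {a b : ℝ} {s : ℕ → ℝ} {r ε : ℝ}
    (h : ENNReal.ofReal (1 - (r + ε) / Real.log b) ≤
      dimH {x : ℝ | x ∈ Set.Ioo a b ∧ HasLaw (fun n => x ^ (n + 1) + s n) g}) :
    ENNReal.ofReal (1 - (r + ε) / Real.log b) ≤ dimH {x | x ∈ Set.Ioo a b ∧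
      Tendsto (fun N : ℕ => (∑ n ∈ Finset.range N, φ (x ^ (n + 1) + s n)) / N) atTop (𝓝 δ)} := by
  refine h.trans (dimH_mono ?_)
  rintro x ⟨hx, hlaw⟩
  refine ⟨hx, ?_⟩
  have h1 := hlaw φ hφ hper
  have h2 : ∫ t in (0 : ℝ)..1, φ t * g t = δ := by
    rw [← hg]
    exact intervalIntegral.integral_congr fun t _ => mul_comm _ _
  rwa [h2] at h1

/-- the error of the Taylor polynomial -/
theorem yn_small {A δ η L : ℝ} (hA1 : 1 ≤ A) (h0 : 0 < δ) (hδA : 200 * A ^ 5 * δ ≤ 1) (hη : η = Real.exp (-L)) {n : ℕ}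
    (hn1 : L ≤ n) (hn : 1 ≤ n) : (2 * A ^ 2 * δ) ^ (n + 1) ≤ η ^ 2 / 100 := by
  have hA25 : A ^ 2 ≤ A ^ 5 := pow_le_pow_right₀ hA1 (by norm_num)
  have hy0 : 0 < 2 * A ^ 2 * δ := by positivity
  have hy100 : 2 * A ^ 2 * δ ≤ 1 / 100 := by
    have := mul_le_mul_of_nonneg_right hA25 h0.le
    linarith
  have hsq : Real.exp (-2) ≥ 1 / 10 := by
    have h4 := Real.exp_one_lt_d9
    have h5 : Real.exp (-2) = ((Real.exp 1) ^ 2)⁻¹ := by
      rw [← Real.exp_nat_mul, ← Real.exp_neg]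
      norm_num
    rw [h5, ge_iff_le, ← one_div]
    refine one_div_le_one_div_of_le (by positivity) ?_
    have h6 : Real.exp 1 ≤ 3 := by linarith
    have h7 := pow_le_pow_left₀ (Real.exp_pos 1).le h6 2
    linarith
  have h1 : (2 * A ^ 2 * δ) ^ (n + 1) ≤ (Real.exp (-2) / 10) ^ (n + 1) := pow_le_pow_left₀ hy0.le (by linarith) _
  have h2 : (Real.exp (-2) / 10) ^ (n + 1) ≤ η ^ 2 / 100 := by
    rw [div_pow, ← Real.exp_nat_mul]
    have h4 : Real.exp (((n + 1 : ℕ) : ℝ) * -2) ≤ η ^ 2 := by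
      rw [hη, ← Real.exp_nat_mul]
      refine Real.exp_le_exp.2 ?_
      push_cast
      linarith
    have h5 : (100 : ℝ) ≤ 10 ^ (n + 1) := by
      have h6 : (10 : ℝ) ^ 2 ≤ 10 ^ (n + 1) := pow_le_pow_right₀ (by norm_num) (by omega)
      norm_num at h6
      exact h6
    exact div_le_div₀ (by positivity) h4 (by norm_num) h5
  exact h1.trans h2

/-- lower bound for the level sets of a Lipschitz function -/
theorem lip_lower {φ : ℝ → ℝ} {K : ℝ} (hper : ∀ t, φ (t + 1) = φ t)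
    (hlip : ∀ s t, |φ s - φ t| ≤ K * |s - t|) (hmean : ∫ t in (0:ℝ)..1, φ t = 0)
    (hne : ∃ t, φ t ≠ 0) {a₀ : ℝ} (ha : 1 < a₀) :
    ∃ k δ₀ : ℝ, 0 < k ∧ 0 < δ₀ ∧ ∀ a b δ : ℝ, a₀ ≤ a → a < b → 0 < δ → δ ≤ δ₀ → ∀ s : ℕ → ℝ,
      ENNReal.ofReal (1 - (rateL φ δ + Real.exp (-(k / δ))) / Real.log b) ≤ dimH {x | x ∈ Set.Ioo a b ∧
        Tendsto (fun N : ℕ => (∑ n ∈ Finset.range N, φ (x ^ (n + 1) + s n)) / N) atTop (𝓝 δ)} := by
  have hK := lip_K hlip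
  have hφ := lip_cont hlip
  obtain ⟨M, hMdef⟩ : ∃ M : ℝ, M = |φ 0| + K + 1 := ⟨_, rfl⟩
  have hM : 1 ≤ M := by
    have := abs_nonneg (φ 0)
    linarith
  have hb : ∀ t, |φ t| ≤ M := fun t => by
    have := phi_bd hper hlip hK t
    linarith
  obtain ⟨V, hVdef⟩ : ∃ V : ℝ, V = ∫ t in (0:ℝ)..1, φ t ^ 2 := ⟨_, rfl⟩
  have hV0 : 0 < V := by
    rw [hVdef]
    obtain ⟨t, ht⟩ := hne
    have h1 : Function.Periodic φ 1 := hper
    have h2 : φ (Int.fract t) = φ t := by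
      have h3 := h1.sub_zsmul_eq (x := t) ⌊t⌋
      rw [zsmul_eq_mul, mul_one] at h3
      exact h3
    refine intervalIntegral.integral_pos (by norm_num) (by fun_prop) (fun x _ => sq_nonneg _)
      ⟨Int.fract t, ⟨Int.fract_nonneg t, (Int.fract_lt_one t).le⟩, ?_⟩
    rw [h2]
    positivity
  have hVM : V ≤ M ^ 2 := by
    rw [hVdef]
    have h1 : ∫ t in (0:ℝ)..1, φ t ^ 2 ≤ ∫ _ in (0:ℝ)..1, M ^ 2 :=
      intervalIntegral.integral_mono_on (by norm_num) (Continuous.intervalIntegrable (by fun_prop) _ _)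
        (by simp) fun t _ => by
          rw [← sq_abs (φ t)]
          exact pow_le_pow_left₀ (abs_nonneg _) (hb t) 2
    simpa using h1
  obtain ⟨A', hA'1, hA'⟩ := lip_wien hper hlip hmean
  have hA'0 : (1 : ℝ) ≤ A' := by exact_mod_cast hA'1
  obtain ⟨A, hAdef⟩ : ∃ A : ℝ, A = M + 1 + 32 / V + A' := ⟨_, rfl⟩
  have hAV0 : 0 < 32 / V := by positivity
  have hA1 : 1 ≤ A := by linarith
  have hA0 : 0 < A := by linarith
  have hAA' : (A' : ℝ) ≤ A := by linarith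
  -- the constant
  obtain ⟨C', hC'⟩ : ∃ C' : ℝ, C' = 4 * (2 * A * A + 2) := ⟨_, rfl⟩
  have hC'0 : 0 < C' := by
    rw [hC']
    positivity
  obtain ⟨c₁, hc₁, hkap⟩ := kap_inv ha hC'0
  obtain ⟨k, hk⟩ : ∃ k : ℝ, k = c₁ / (A' + 4) := ⟨_, rfl⟩
  have hk0 : 0 < k := by rw [hk]; positivity
  obtain ⟨C, hC⟩ : ∃ C : ℝ, C = 200 * A ^ 5 + 3 + 32 * M ^ 3 / V ^ 2 + 1 / c₁ + 8 * M / V := ⟨_, rfl⟩
  have hA5 : (1 : ℝ) ≤ A ^ 5 := one_le_pow₀ hA1
  have hMV : 0 < 32 * M ^ 3 / V ^ 2 := by positivity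
  have hMV2 : 0 < 8 * M / V := by positivity
  have hic : 0 < 1 / c₁ := by positivity
  have hC3 : 3 ≤ C := by linarith
  obtain ⟨δ₀, hδ₀, hsm⟩ := lin_small (c := k) (C := C) hk0 hC3
  refine ⟨k / 2, δ₀, by positivity, hδ₀, ?_⟩
  intro a b δ haa hab' h0 hδ s
  obtain ⟨e1, e2, e3, e4⟩ := hsm δ h0 hδ
  obtain ⟨L, hL⟩ : ∃ L : ℝ, L = k / δ := ⟨_, rfl⟩
  obtain ⟨η, hη⟩ : ∃ η : ℝ, η = Real.exp (-L) := ⟨_, rfl⟩
  rw [← hL] at e2
  rw [← hL, ← hη] at e3 e4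
  have hη0 : 0 < η := by rw [hη]; exact Real.exp_pos _
  have hCA : 200 * A ^ 5 ≤ C := by linarith
  have hCM : 32 * M ^ 3 / V ^ 2 ≤ C := by linarith
  have hCMV : 8 * M / V ≤ C := by linarith
  have hCc : 1 / c₁ ≤ C := by linarith
  have hL3 : 3 ≤ L := hC3.trans e2
  have hδA : 200 * A ^ 5 * δ ≤ 1 := (mul_le_mul_of_nonneg_right hCA h0.le).trans e1
  have hηA : 200 * A ^ 5 * η ≤ δ := (mul_le_mul_of_nonneg_right hCA hη0.le).trans e3
  have hδ5 := mul_le_mul_of_nonneg_right hA5 h0.le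
  have hη5 := mul_le_mul_of_nonneg_right hA5 hη0.le
  have hη12 : η ≤ 1 / 2 := by linarith
  have hδc : δ ≤ c₁ := by
    have h1 := (mul_le_mul_of_nonneg_right hCc h0.le).trans e1
    rw [one_div, inv_mul_le_iff₀ hc₁] at h1
    linarith
  have hd3 : δ * (32 * M ^ 3) ≤ V ^ 2 := by
    have h1 := (mul_le_mul_of_nonneg_right hCM h0.le).trans e1
    rw [div_mul_eq_mul_div, div_le_iff₀ (by positivity)] at h1
    linarith
  have hd4 : 8 * M * δ ≤ V := by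
    have h1 := (mul_le_mul_of_nonneg_right hCMV h0.le).trans e1
    rw [div_mul_eq_mul_div, div_le_iff₀ hV0] at h1
    linarith
  have hlb : 0 < Real.log b := Real.log_pos (by linarith)
  obtain ⟨H, c, p, hp, hc0, hHη, hnmA, hpφ⟩ := hA' η hη0 hη12
  obtain ⟨n, hn⟩ : ∃ n : ℕ, n = ⌈L⌉₊ := ⟨_, rfl⟩
  have hn1 : L ≤ n := by rw [hn]; exact Nat.le_ceil L
  have hn2 : (n : ℝ) ≤ L + 1 := by rw [hn]; exact (Nat.ceil_lt_add_one (by linarith)).le
  have hnpos : 1 ≤ n := by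
    have : (0 : ℝ) < n := by linarith
    exact_mod_cast this
  have hyn := yn_small hA1 h0 hδA hη hn1 hnpos
  have hHL : (H : ℝ) ≤ Real.exp (A' * L) := by
    refine hHη.trans (le_of_eq ?_)
    rw [hη, one_div, ← Real.exp_neg, neg_neg, ← Real.exp_nat_mul]
  have hLL : Real.exp (c₁ / δ) = Real.exp (A' * L) * Real.exp L ^ 4 := by
    rw [← Real.exp_nat_mul, ← Real.exp_add]
    congr 1
    rw [hL, hk]
    push_cast
    field_simp
  have heL := Real.add_one_le_exp L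
  have heA : 1 ≤ Real.exp (A' * L) := Real.one_le_exp (by positivity)
  have hD1 : (1 : ℝ) ≤ ((2 * (n * (H + 1) + 1) : ℕ) : ℝ) := by
    push_cast
    have : (0 : ℝ) ≤ (n : ℝ) * (H + 1) := by positivity
    linarith
  have hD2 : ((2 * (n * (H + 1) + 1) : ℕ) : ℝ) ≤ Real.exp (c₁ / δ) := by
    rw [hLL]
    push_cast
    have h1 : (n : ℝ) * (H + 1) ≤ Real.exp L * (2 * Real.exp (A' * L)) :=
      mul_le_mul (by linarith) (by linarith) (by positivity) (Real.exp_pos _).le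
    have h2 : (1 : ℝ) * 1 ≤ Real.exp L * Real.exp (A' * L) := mul_le_mul (by linarith) heA (by norm_num) (Real.exp_pos _).le
    have h3 : (6 : ℝ) ≤ Real.exp L ^ 3 := by
      have h4 : (4 : ℝ) ≤ Real.exp L := by linarith
      have h5 := pow_le_pow_left₀ (by norm_num) h4 3
      linarith
    have h4 : Real.exp L * Real.exp (A' * L) * 6 ≤ Real.exp L * Real.exp (A' * L) * Real.exp L ^ 3 :=
      mul_le_mul_of_nonneg_left h3 (by positivity)
    have h5 : Real.exp L * Real.exp (A' * L) * Real.exp L ^ 3 = Real.exp (A' * L) * Real.exp L ^ 4 := by ring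
    linarith
  have hkU := hkap c₁ δ hc₁ le_rfl h0 hδc _ hD1 hD2
  have hnm0 := nm_nonneg H c
  have hkU' : 4 * (2 * A * nm H c + 2) * δ < Real.log a₀ * kap a₀ ((2 * (n * (H + 1) + 1) : ℕ) : ℝ) := by
    refine lt_of_le_of_lt ?_ hkU
    rw [hC']
    refine mul_le_mul_of_nonneg_right ?_ h0.le
    have h1 : A * nm H c ≤ A * A := mul_le_mul_of_nonneg_left (hnmA.trans hAA') hA0.le
    linarith
  obtain ⟨θ, -, hθv, hdim⟩ := level_core ha hφ hb hM hmean hVdef hV0 hVM (A := A) (by linarith) h0 hη0 hδA hηA hd3 hd4 hp hc0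
    hpφ hyn hkU'
  have h1 := mean_of_law hφ hper hθv (hdim a b haa hab' s)
  refine (ENNReal.ofReal_le_ofReal ?_).trans h1
  have h3η : 3 * η ≤ Real.exp (-((k / 2) / δ)) := by
    have h2 := mul_le_mul_of_nonneg_right hC3 hη0.le
    linarith
  have h2 := div_le_div_of_nonneg_right (show rateL φ δ + 3 * η ≤ rateL φ δ + Real.exp (-((k / 2) / δ)) by linarith) hlb.le
  linarith

/-- **Level sets of the means of a Lipschitz function.** -/
theorem lip_level {φ : ℝ → ℝ} {K : ℝ} (hper : ∀ t, φ (t + 1) = φ t)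
    (hlip : ∀ s t, |φ s - φ t| ≤ K * |s - t|) (hmean : ∫ t in (0:ℝ)..1, φ t = 0)
    (hne : ∃ t, φ t ≠ 0) {a₀ : ℝ} (ha : 1 < a₀) :
    ∃ k δ₀ : ℝ, 0 < k ∧ 0 < δ₀ ∧ ∀ a b δ : ℝ, a₀ ≤ a → a < b → 0 < δ → δ ≤ δ₀ → ∀ s : ℕ → ℝ,
      DimLevel a b (fun x N => (∑ n ∈ Finset.range N, φ (x ^ (n + 1) + s n)) / N) δ (rateL φ δ)
        (Real.exp (-(k / δ))) := by
  obtain ⟨k₁, δ₁, hk₁, hδ₁, h1⟩ := lip_lower hper hlip hmean hne ha
  obtain ⟨k₂, δ₂, hk₂, hδ₂, h2⟩ := lip_up hper hlip hmean hne ha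
  refine ⟨min k₁ k₂, min δ₁ δ₂, by positivity, by positivity, fun a b δ haa hab' h0 hδ s => ?_⟩
  refine DimLevel.of (by linarith) (h1 a b δ haa hab' h0 (hδ.trans (min_le_left _ _)) s)
    (h2 a b δ haa hab' h0 (hδ.trans (min_le_right _ _)) s) ?_ ?_
  · exact Real.exp_le_exp.2 (neg_le_neg (div_le_div_of_nonneg_right (min_le_left _ _) h0.le))
  · exact Real.exp_le_exp.2 (neg_le_neg (div_le_div_of_nonneg_right (min_le_right _ _) h0.le))

/-- the Gibbs laws of a trigonometric polynomial -/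
theorem trig_core {H : ℕ} {c : ℤ → ℂ} {φ : ℝ → ℝ} (hp : ∀ t, gp H c t = φ t) (hc0 : c 0 = 0)
    (hne : ∃ t, φ t ≠ 0) (hper : ∀ t, φ (t + 1) = φ t) {a₀ : ℝ} (ha : 1 < a₀) :
    ∃ k δ₀ : ℝ, 0 < k ∧ 0 < δ₀ ∧ ∀ δ : ℝ, 0 < δ → δ ≤ δ₀ → ∃ (θ : ℝ) (n : ℕ),
      ∫ t in (0 : ℝ)..1, gT φ n θ t * φ t = δ ∧ ∀ a b, a₀ ≤ a → a < b → ∀ s : ℕ → ℝ,
      ENNReal.ofReal (1 - (rateL φ δ + Real.exp (-Real.exp (k / δ))) / Real.log b) ≤
        dimH {x : ℝ | x ∈ Set.Ioo a b ∧ HasLaw (fun n => x ^ (n + 1) + s n) (gT φ n θ)} := by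
  have hφ : Continuous φ := by
    have h4 : φ = fun t => (gp H c t).re := by
      funext t
      rw [hp t, Complex.ofReal_re]
    rw [h4]
    exact Complex.continuous_re.comp (gp_cont H c)
  have hmean : ∫ t in (0 : ℝ)..1, φ t = 0 := by
    have := coeff_zero hp
    rw [hc0] at this
    exact_mod_cast this.symm
  have hnm0 := nm_nonneg H c
  have hbd : ∀ t, |φ t| ≤ nm H c := by
    intro t
    rw [← Real.norm_eq_abs, ← Complex.norm_real, ← hp t]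
    unfold gp nm
    refine (norm_sum_le _ _).trans (Finset.sum_le_sum fun k _ => ?_)
    rw [norm_mul, Pool.Agent.Helper82.FK.norm_e, mul_one]
  obtain ⟨M, hMdef⟩ : ∃ M : ℝ, M = nm H c + 1 := ⟨_, rfl⟩
  have hM : 1 ≤ M := by linarith
  have hb : ∀ t, |φ t| ≤ M := fun t => (hbd t).trans (by linarith)
  obtain ⟨V, hVdef⟩ : ∃ V : ℝ, V = ∫ t in (0:ℝ)..1, φ t ^ 2 := ⟨_, rfl⟩
  have hV0 : 0 < V := by
    rw [hVdef]
    obtain ⟨t, ht⟩ := hne
    have h1 : Function.Periodic φ 1 := hper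
    have h2 : φ (Int.fract t) = φ t := by
      have h3 := h1.sub_zsmul_eq (x := t) ⌊t⌋
      rw [zsmul_eq_mul, mul_one] at h3
      exact h3
    refine intervalIntegral.integral_pos (by norm_num) (by fun_prop) (fun x _ => sq_nonneg _)
      ⟨Int.fract t, ⟨Int.fract_nonneg t, (Int.fract_lt_one t).le⟩, ?_⟩
    rw [h2]
    positivity
  have hVM : V ≤ M ^ 2 := by
    rw [hVdef]
    have h1 : ∫ t in (0:ℝ)..1, φ t ^ 2 ≤ ∫ _ in (0:ℝ)..1, M ^ 2 :=
      intervalIntegral.integral_mono_on (by norm_num) (Continuous.intervalIntegrable (by fun_prop) _ _)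
        (by simp) fun t _ => by
          rw [← sq_abs (φ t)]
          exact pow_le_pow_left₀ (abs_nonneg _) (hb t) 2
    simpa using h1
  obtain ⟨A, hAdef⟩ : ∃ A : ℝ, A = M + 1 + 32 / V := ⟨_, rfl⟩
  have hAV0 : 0 < 32 / V := by positivity
  have hA1 : 1 ≤ A := by linarith
  have hA0 : 0 < A := by linarith
  -- the constant
  obtain ⟨C', hC'⟩ : ∃ C' : ℝ, C' = 4 * (2 * A * nm H c + 2) := ⟨_, rfl⟩
  have hC'0 : 0 < C' := by
    rw [hC']
    positivity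
  obtain ⟨c₁, hc₁, hkap⟩ := kap_inv ha hC'0
  obtain ⟨k, hk⟩ : ∃ k : ℝ, k = c₁ / 2 := ⟨_, rfl⟩
  have hk0 : 0 < k := by rw [hk]; positivity
  obtain ⟨C, hC⟩ : ∃ C : ℝ, C = 200 * A ^ 5 + 4 * H + 6 + 32 * M ^ 3 / V ^ 2 + 1 / c₁ + 8 * M / V := ⟨_, rfl⟩
  have hA5 : (1 : ℝ) ≤ A ^ 5 := one_le_pow₀ hA1
  have hH0 : (0 : ℝ) ≤ H := Nat.cast_nonneg H
  have hMV : 0 < 32 * M ^ 3 / V ^ 2 := by positivity
  have hMV2 : 0 < 8 * M / V := by positivity
  have hic : 0 < 1 / c₁ := by positivity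
  have hC3 : 3 ≤ C := by linarith
  obtain ⟨δ₀, hδ₀, hsm⟩ := dexp_small (c := k) (C := C) hk0 hC3
  refine ⟨k / 2, δ₀, by positivity, hδ₀, ?_⟩
  intro δ h0 hδ
  obtain ⟨e1, e2, e3, e4⟩ := hsm δ h0 hδ
  obtain ⟨L, hL⟩ : ∃ L : ℝ, L = Real.exp (k / δ) := ⟨_, rfl⟩
  obtain ⟨η, hη⟩ : ∃ η : ℝ, η = Real.exp (-L) := ⟨_, rfl⟩
  rw [← hL, ← hη] at e3 e4
  have hη0 : 0 < η := by rw [hη]; exact Real.exp_pos _
  have hLC : C ≤ L := by
    refine e2.trans ?_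
    rw [hL]
    refine Real.exp_le_exp.2 ?_
    refine div_le_div_of_nonneg_right ?_ h0.le
    linarith
  have hCA : 200 * A ^ 5 ≤ C := by linarith
  have hCM : 32 * M ^ 3 / V ^ 2 ≤ C := by linarith
  have hCMV : 8 * M / V ≤ C := by linarith
  have hCc : 1 / c₁ ≤ C := by linarith
  have hL3 : 3 ≤ L := hC3.trans hLC
  have hLH : 4 * (H : ℝ) + 6 ≤ L := le_trans (by linarith) hLC
  have hδA : 200 * A ^ 5 * δ ≤ 1 := (mul_le_mul_of_nonneg_right hCA h0.le).trans e1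
  have hηA : 200 * A ^ 5 * η ≤ δ := (mul_le_mul_of_nonneg_right hCA hη0.le).trans e3
  have hδc : δ ≤ c₁ := by
    have h1 := (mul_le_mul_of_nonneg_right hCc h0.le).trans e1
    rw [one_div, inv_mul_le_iff₀ hc₁] at h1
    linarith
  have hd3 : δ * (32 * M ^ 3) ≤ V ^ 2 := by
    have h1 := (mul_le_mul_of_nonneg_right hCM h0.le).trans e1
    rw [div_mul_eq_mul_div, div_le_iff₀ (by positivity)] at h1
    linarith
  have hd4 : 8 * M * δ ≤ V := by
    have h1 := (mul_le_mul_of_nonneg_right hCMV h0.le).trans e1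
    rw [div_mul_eq_mul_div, div_le_iff₀ hV0] at h1
    linarith
  obtain ⟨n, hn⟩ : ∃ n : ℕ, n = ⌈L⌉₊ := ⟨_, rfl⟩
  have hn1 : L ≤ n := by rw [hn]; exact Nat.le_ceil L
  have hn2 : (n : ℝ) ≤ L + 1 := by rw [hn]; exact (Nat.ceil_lt_add_one (by linarith)).le
  have hnpos : 1 ≤ n := by
    have : (0 : ℝ) < n := by linarith
    exact_mod_cast this
  have hyn := yn_small hA1 h0 hδA hη hn1 hnpos
  have hLL : Real.exp (c₁ / δ) = L ^ 2 := by
    rw [hL, ← Real.exp_nat_mul]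
    congr 1
    rw [hk]
    push_cast
    ring
  have hD1 : (1 : ℝ) ≤ ((2 * (n * (H + 1) + 1) : ℕ) : ℝ) := by
    push_cast
    have : (0 : ℝ) ≤ (n : ℝ) * (H + 1) := by positivity
    linarith
  have hL2 := mul_le_mul_of_nonneg_right hLH (show 0 ≤ L by linarith)
  have hD2 : ((2 * (n * (H + 1) + 1) : ℕ) : ℝ) ≤ Real.exp (c₁ / δ) := by
    rw [hLL]
    push_cast
    have h1 : (n : ℝ) * (H + 1) ≤ (L + 1) * (H + 1) := mul_le_mul_of_nonneg_right hn2 (by positivity)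
    have h2 : (1 : ℝ) * (H + 1) ≤ L * (H + 1) := mul_le_mul_of_nonneg_right (by linarith) (by positivity)
    linarith
  have hkU := hkap c₁ δ hc₁ le_rfl h0 hδc _ hD1 hD2
  rw [hC'] at hkU
  obtain ⟨θ, -, hθv, hdim⟩ := level_core ha hφ hb hM hmean hVdef hV0 hVM (A := A) (by linarith) h0 hη0 hδA hηA hd3 hd4 hp hc0
    (fun t => by rw [sub_self, abs_zero]; exact hη0.le) hyn hkU
  refine ⟨θ, n, hθv, fun a b haa hab' s => (ENNReal.ofReal_le_ofReal ?_).trans (hdim a b haa hab' s)⟩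
  have hlb : 0 < Real.log b := Real.log_pos (by linarith)
  have h3η : 3 * η ≤ Real.exp (-Real.exp ((k / 2) / δ)) := by
    have h2 := mul_le_mul_of_nonneg_right hC3 hη0.le
    linarith
  have h2 := div_le_div_of_nonneg_right (show rateL φ δ + 3 * η ≤ rateL φ δ + Real.exp (-Real.exp ((k / 2) / δ)) by linarith) hlb.le
  linarith

theorem gp_per {H : ℕ} {c : ℤ → ℂ} {φ : ℝ → ℝ} (hp : ∀ t, gp H c t = φ t) (t : ℝ) : φ (t + 1) = φ t := by
  have h1 : ((φ (t + 1) : ℝ) : ℂ) = φ t := by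
    rw [← hp, ← hp]
    unfold gp
    refine Finset.sum_congr rfl fun k _ => ?_
    congr 1
    unfold Pool.Agent.Helper82.FK.e
    rw [show ((2 * Real.pi * (k * (t + 1)) : ℝ) : ℂ) * Complex.I =
      ((2 * Real.pi * (k * t) : ℝ) : ℂ) * Complex.I + k * (2 * Real.pi * Complex.I) by push_cast; ring]
    rw [Complex.exp_add, Complex.exp_int_mul_two_pi_mul_I, mul_one]
  exact_mod_cast h1

theorem dexp_anti {k k' δ : ℝ} (h0 : 0 < δ) (h : k ≤ k') : Real.exp (-Real.exp (k' / δ)) ≤ Real.exp (-Real.exp (k / δ)) :=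
  Real.exp_le_exp.2 (neg_le_neg (Real.exp_le_exp.2 (div_le_div_of_nonneg_right h h0.le)))

/-- **Level sets of the means of a trigonometric polynomial.** -/
theorem trig_level {H : ℕ} {c : ℤ → ℂ} {φ : ℝ → ℝ} (hp : ∀ t, gp H c t = φ t) (hc0 : c 0 = 0)
    (hne : ∃ t, φ t ≠ 0) {a₀ : ℝ} (ha : 1 < a₀) :
    ∃ k δ₀ : ℝ, 0 < k ∧ 0 < δ₀ ∧ ∀ a b δ : ℝ, a₀ ≤ a → a < b → 0 < δ → δ ≤ δ₀ → ∀ s : ℕ → ℝ,
      DimLevel a b (fun x N => (∑ n ∈ Finset.range N, φ (x ^ (n + 1) + s n)) / N) δ (rateL φ δ)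
        (Real.exp (-Real.exp (k / δ))) := by
  have hφ : Continuous φ := by
    have h4 : φ = fun t => (gp H c t).re := by
      funext t
      rw [hp t, Complex.ofReal_re]
    rw [h4]
    exact Complex.continuous_re.comp (gp_cont H c)
  obtain ⟨k₁, δ₁, hk₁, hδ₁, h1⟩ := trig_core hp hc0 hne (gp_per hp) ha
  obtain ⟨k₂, δ₂, hk₂, hδ₂, h2⟩ := trig_up hp hc0 hne ha
  refine ⟨min k₁ k₂, min δ₁ δ₂, by positivity, by positivity, fun a b δ haa hab' h0 hδ s => ?_⟩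
  obtain ⟨θ, n, hθ, hdim⟩ := h1 δ h0 (hδ.trans (min_le_left _ _))
  exact DimLevel.of (by linarith) (mean_of_law hφ (gp_per hp) hθ (hdim a b haa hab' s))
    (h2 a b δ haa hab' h0 (hδ.trans (min_le_right _ _)) s) (dexp_anti h0 (min_le_left _ _))
    (dexp_anti h0 (min_le_right _ _))

/-- **Level sets of the Weyl sums.** -/
theorem weyl_level (m : ℕ) (hm : 1 ≤ m) {a₀ : ℝ} (ha : 1 < a₀) :
    ∃ k δ₀ : ℝ, 0 < k ∧ 0 < δ₀ ∧ ∀ a b δ : ℝ, a₀ ≤ a → a < b → 0 < δ → δ ≤ δ₀ → ∀ s : ℕ → ℝ,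
      DimLevel a b (fun x N => ‖∑ n ∈ Finset.range N, Complex.exp (2 * Real.pi * Complex.I *
            ((m * (x ^ (n + 1) + s n) : ℝ) : ℂ))‖ / N) δ (rateL (fun t => Real.cos (2 * Real.pi * t)) δ)
        (Real.exp (-Real.exp (k / δ))) := by
  have hne : ∃ t, cs m t ≠ 0 := ⟨0, by
    unfold cs
    simp⟩
  have hc0 : (fun k : ℤ => if k = (m : ℤ) then (1 / 2 : ℂ) else if k = -(m : ℤ) then 1 / 2 else 0) 0 = 0 := by
    have h1 : (0 : ℤ) ≠ m := by omega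
    have h2 : (0 : ℤ) ≠ -(m : ℤ) := by omega
    simp only [h1, h2, if_false]
  obtain ⟨k₁, δ₁, hk₁, hδ₁, h1⟩ := trig_core (gp_cs hm) hc0 hne (cs_per m) ha
  obtain ⟨k₂, δ₂, hk₂, hδ₂, h2⟩ := weyl_up m hm ha
  refine ⟨min k₁ k₂, min δ₁ δ₂, by positivity, by positivity, fun a b δ haa hab' h0 hδ s => ?_⟩
  obtain ⟨θ, n, hθ, hdim⟩ := h1 δ h0 (hδ.trans (min_le_left _ _))
  have hlow := hdim a b haa hab' s
  rw [cs_rate hm] at hlow
  refine DimLevel.of (by linarith) (hlow.trans (dimH_mono ?_))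
    (h2 a b δ haa hab' h0 (hδ.trans (min_le_right _ _)) s) (dexp_anti h0 (min_le_left _ _))
    (dexp_anti h0 (min_le_right _ _))
  rintro x ⟨hx, hlaw⟩
  refine ⟨hx, ?_⟩
  have hg1 : Continuous (gT (cs m) n θ) := gT_cont (cs_cont m) n θ
  have hcs := hlaw (cs m) (cs_cont m) (cs_per m)
  have hsc : Continuous fun t : ℝ => Real.sin (2 * Real.pi * (m * t)) := by fun_prop
  have hsn := hlaw (fun t => Real.sin (2 * Real.pi * (m * t))) hsc (fun t => by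
    rw [show 2 * Real.pi * (m * (t + 1)) = 2 * Real.pi * (m * t) + m * (2 * Real.pi) by ring]
    exact Real.sin_add_nat_mul_two_pi _ _)
  have e1 : ∫ t in (0 : ℝ)..1, cs m t * gT (cs m) n θ t = δ := by
    rw [← hθ]
    exact intervalIntegral.integral_congr fun t _ => mul_comm _ _
  have e2 : ∫ t in (0 : ℝ)..1, Real.sin (2 * Real.pi * (m * t)) * gT (cs m) n θ t = 0 := by
    have hsym : ∀ t : ℝ, gT (cs m) n θ (1 - t) = gT (cs m) n θ t := by
      intro t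
      unfold gT Tp
      have h3 : cs m (1 - t) = cs m t := by
        unfold cs
        rw [show 2 * Real.pi * (m * (1 - t)) = m * (2 * Real.pi) - 2 * Real.pi * (m * t) by ring]
        exact Real.cos_nat_mul_two_pi_sub _ _
      rw [h3]
    have h3 : ∫ t in (0 : ℝ)..1, Real.sin (2 * Real.pi * (m * t)) * gT (cs m) n θ t =
        ∫ t in (0 : ℝ)..1, Real.sin (2 * Real.pi * (m * (1 - t))) * gT (cs m) n θ (1 - t) := by
      rw [intervalIntegral.integral_comp_sub_left (fun t => Real.sin (2 * Real.pi * (m * t)) * gT (cs m) n θ t) 1]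
      simp
    have h4 : ∫ t in (0 : ℝ)..1, Real.sin (2 * Real.pi * (m * (1 - t))) * gT (cs m) n θ (1 - t) =
        -∫ t in (0 : ℝ)..1, Real.sin (2 * Real.pi * (m * t)) * gT (cs m) n θ t := by
      rw [← intervalIntegral.integral_neg]
      refine intervalIntegral.integral_congr fun t _ => ?_
      rw [hsym, show 2 * Real.pi * (m * (1 - t)) = m * (2 * Real.pi) - 2 * Real.pi * (m * t) by ring,
        Real.sin_nat_mul_two_pi_sub]
      ring
    linarith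
  rw [e1] at hcs
  rw [e2] at hsn
  have h3 : Tendsto (fun N : ℕ => (((∑ n ∈ range N, cs m (x ^ (n + 1) + s n)) / N : ℝ) : ℂ) +
      (((∑ n ∈ range N, Real.sin (2 * Real.pi * (m * (x ^ (n + 1) + s n)))) / N : ℝ) : ℂ) * Complex.I) atTop
      (𝓝 ((δ : ℂ) + ((0 : ℝ) : ℂ) * Complex.I)) :=
    ((Complex.continuous_ofReal.tendsto _).comp hcs).add
      (((Complex.continuous_ofReal.tendsto _).comp hsn).mul_const _)
  have h4 := h3.norm
  rw [Complex.ofReal_zero, zero_mul, add_zero, Complex.norm_real, Real.norm_eq_abs, abs_of_pos h0] at h4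
  refine h4.congr fun N => ?_
  have h5 : (((∑ n ∈ range N, cs m (x ^ (n + 1) + s n)) / N : ℝ) : ℂ) +
      (((∑ n ∈ range N, Real.sin (2 * Real.pi * (m * (x ^ (n + 1) + s n)))) / N : ℝ) : ℂ) * Complex.I =
      (∑ n ∈ range N, Complex.exp (2 * Real.pi * Complex.I * ((m * (x ^ (n + 1) + s n) : ℝ) : ℂ))) / N := by
    push_cast
    rw [div_mul_eq_mul_div, ← add_div]
    congr 1
    rw [Finset.sum_mul, ← Finset.sum_add_distrib]
    refine Finset.sum_congr rfl fun n _ => ?_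
    unfold cs
    push_cast
    rw [← Complex.exp_mul_I]
    congr 1
    ring
  rw [h5, norm_div, Complex.norm_natCast]

end Pool.Agent.Helper18.GPL
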