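import Pool.Agent.Helper18.GPL.DiscG
import Pool.Agent.Helper18.GPL.Level

/-!
The level sets of the discrepancy.
-/

set_option autoImplicit false

namespace Pool.Agent.Helper18.GPL

open Finset MeasureTheory Filter Topology
open Pool.Agent.Helper18.GP (gp nm gp_cont gp_lip coeff_zero nm_nonneg kap lam lam_mono one_le_mgf tr_val TC TC.mono exp_small
  saddle rateD kl kl_ge tr_int_ge kap_exp disc_upper_exp)
open Pool.Agent.Helper78.KD (tz tr disc tr_cont tr_mean tr_range)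
open Pool.Agent.Helper59.MF (HasLaw HasJoint)

/-- the Gibbs laws of the discrepancy -/
theorem disc_core {a₀ : ℝ} (ha : 1 < a₀) : ∃ c₁ : ℝ, 0 < c₁ ∧ ∀ cc, 0 < cc → cc ≤ c₁ → ∃ δ₀ : ℝ, 0 < δ₀ ∧
    ∀ δ : ℝ, 0 < δ → δ ≤ δ₀ → ∃ g : ℝ → ℝ, Continuous g ∧ (∀ t, g (t + 1) = g t) ∧ (∀ t, 0 ≤ g t) ∧
      ∫ t in (0 : ℝ)..1, g t = 1 ∧ discLaw g = δ ∧ ∀ a b, a₀ ≤ a → a < b → ∀ s : ℕ → ℝ,
      ENNReal.ofReal (1 - (rateD δ + 13 * Real.exp (-(cc / √δ))) / Real.log b) ≤
        dimH {x : ℝ | x ∈ Set.Ioo a b ∧ HasLaw (fun n => x ^ (n + 1) + s n) g} := by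
  obtain ⟨A', hA'⟩ := Pool.Agent.Helper59.GP.tr_approx
  obtain ⟨A, hA⟩ : ∃ A : ℕ, A = A' + 128 := ⟨_, rfl⟩
  have hAr : (128 : ℝ) ≤ A := by exact_mod_cast (by omega : 128 ≤ A)
  obtain ⟨c₁, hc₁, hkap⟩ := kap_exp ha (A := A + 4) (C' := 4 * (2 * (A : ℝ) ^ 2 + 1)) (by positivity) (by positivity)
  refine ⟨c₁, hc₁, fun cc hcc hcc1 => ?_⟩
  have hA1 : (1 : ℝ) ≤ A := by linarith
  obtain ⟨δ₀, hδ₀, hsm⟩ := exp_small (c := cc) (C := 200 * (A : ℝ) ^ 5) hcc (by
    have : (1 : ℝ) ≤ (A : ℝ) ^ 5 := one_le_pow₀ hA1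
    linarith)
  refine ⟨δ₀, hδ₀, ?_⟩
  intro δ hδ0 hδ
  obtain ⟨e1, e2, e3, -⟩ := hsm δ hδ0 hδ
  have hA5 : (1 : ℝ) ≤ (A : ℝ) ^ 5 := one_le_pow₀ hA1
  have hA25 : (A : ℝ) ^ 2 ≤ (A : ℝ) ^ 5 := pow_le_pow_right₀ hA1 (by norm_num)
  have hA15 : (A : ℝ) ≤ (A : ℝ) ^ 5 := le_self_pow₀ hA1 (by norm_num)
  have hδA : A * δ ≤ 1 := by nlinarith
  have hδ40 : δ ≤ 1 / 128 := by
    rw [le_div_iff₀ (by norm_num)]
    nlinarith
  have hδ1 : δ ≤ 1 := by linarith
  obtain ⟨q, θ₀, hq1, hq2, -, -, hkl, -⟩ := saddle hδ0 (by linarith : δ ≤ 1 / 40)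
  obtain ⟨ℓ, hℓ⟩ : ∃ ℓ : ℝ, ℓ = cc / √δ := ⟨_, rfl⟩
  have hkap' := hkap cc hcc hcc1 δ hδ0 (by linarith)
  rw [← hℓ] at e1 e3 hkap' ⊢
  obtain ⟨η, hη⟩ : ∃ η : ℝ, η = Real.exp (-ℓ) := ⟨_, rfl⟩
  rw [← hη] at e3 ⊢
  have hη0 : 0 < η := by rw [hη]; exact Real.exp_pos _
  have hηA : 20 * (A : ℝ) ^ 2 * η ≤ δ := by nlinarith
  have hηδ : 128 * η ≤ δ := by nlinarith
  have hη2 : η ≤ 1 / 2 := by linarith
  have hη1 : η ≤ 1 := by linarith
  obtain ⟨H, c, p, hTC, hp⟩ := hA' η hη0 hη2 q (-q)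
  have hTC' : TC A η H c p := hTC.mono hη0 hη1 (by omega)
  have htc := tr_cont hη0 hη1 q (-q)
  have hpc := hTC'.cont
  have hfl : ⌊q⌋ = 0 := by
    rw [Int.floor_eq_iff]
    constructor <;> push_cast <;> linarith
  have hrange : ∀ t, -q ≤ tr η q (-q) t ∧ tr η q (-q) t ≤ 1 - q := fun t => by
    have := tr_range hη0 q (-q) t
    rw [hfl] at this
    push_cast at this
    constructor <;> linarith [this.1, this.2]
  -- variance
  have hvar : 16 / (A : ℝ) ≤ ∫ t in (0 : ℝ)..1, (p t) ^ 2 := by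
    have h1 := tr_int_ge hη0 (by linarith) (by linarith) (f := fun x => x ^ 2) (q := q) (continuous_pow 2) fun x => sq_nonneg x
    have h2 : (∫ t in (0 : ℝ)..1, (tr η q (-q) t) ^ 2) - 3 * η ≤ ∫ t in (0 : ℝ)..1, (p t) ^ 2 := by
      have h3 : (∫ t in (0 : ℝ)..1, (tr η q (-q) t) ^ 2) - 3 * η = ∫ t in (0 : ℝ)..1, ((tr η q (-q) t) ^ 2 - 3 * η) := by
        have hcc : Continuous fun t : ℝ => (tr η q (-q) t) ^ 2 := htc.pow 2
        rw [intervalIntegral.integral_sub (hcc.intervalIntegrable _ _) ((continuous_const).intervalIntegrable _ _)]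
        simp
      rw [h3]
      refine intervalIntegral.integral_mono_on (by norm_num) (((htc.pow 2).sub continuous_const).intervalIntegrable _ _)
        ((hpc.pow 2).intervalIntegrable _ _) fun t _ => ?_
      have h4 := abs_le.1 (hp t)
      have h5 := hrange t
      have h6 : (tr η q (-q) t) ^ 2 - (p t) ^ 2 = (tr η q (-q) t - p t) * (2 * tr η q (-q) t - (tr η q (-q) t - p t)) := by ring
      have h7 : |(tr η q (-q) t - p t) * (2 * tr η q (-q) t - (tr η q (-q) t - p t))| ≤ η * 3 := by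
        rw [abs_mul]
        refine mul_le_mul (by rw [abs_sub_comm]; exact hp t) ?_ (abs_nonneg _) hη0.le
        rw [abs_le]
        constructor <;> linarith [h4.1, h4.2, h5.1, h5.2]
      have h8 := (abs_le.1 h7).2
      linarith
    have h9 : 16 / (A : ℝ) ≤ 1 / 8 := by
      rw [div_le_div_iff₀ (by linarith) (by norm_num)]
      linarith
    have h10 : 3 / 16 - η ≤ (q - η) * (1 - q) ^ 2 + (1 - q - η) * (-q) ^ 2 := by
      have h11 : (q - η) * (1 - q) ^ 2 + (1 - q - η) * (-q) ^ 2 = q * (1 - q) - η * ((1 - q) ^ 2 + q ^ 2) := by ring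
      rw [h11]
      have h12 : 3 / 16 ≤ q * (1 - q) := by nlinarith
      have h13 : (1 - q) ^ 2 + q ^ 2 ≤ 1 := by nlinarith
      nlinarith
    linarith
  -- the cumulant
  have hR : ∀ θ, 0 ≤ θ → θ ≤ A * δ → θ * (δ + 3 * η) - lam p θ ≤ rateD δ + 12 * η := by
    intro θ hθ0 hθ1
    have hθ1' : θ ≤ 1 := hθ1.trans hδA
    have h1 : lam (tr η q (-q)) θ ≤ lam p θ + θ * η :=
      lam_mono htc hpc (fun t => by have := (abs_le.1 (hp t)).1; linarith) hθ0
    have hE1 : 1 ≤ Real.exp θ := Real.one_le_exp hθ0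
    have hE3 : Real.exp θ ≤ 3 := by
      have h2 : Real.exp θ ≤ Real.exp 1 := Real.exp_le_exp.2 hθ1'
      have h3 := Real.exp_one_lt_d9
      linarith
    have h2 := tr_int_ge hη0 (by linarith) (by linarith) (f := fun x => Real.exp (θ * x)) (q := q)
      (Real.continuous_exp.comp (continuous_const.mul continuous_id)) fun x => (Real.exp_pos _).le
    set X : ℝ := 1 + q * (Real.exp θ - 1) with hX
    have hX1 : 1 ≤ X := by
      have : 0 ≤ q * (Real.exp θ - 1) := mul_nonneg (by linarith) (by linarith)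
      linarith
    have h3 : Real.exp (-(θ * q)) * (X * (1 - 4 * η)) ≤ ∫ t in (0 : ℝ)..1, Real.exp (θ * tr η q (-q) t) := by
      refine le_trans ?_ h2
      have h4 : Real.exp (θ * (1 - q)) = Real.exp (-(θ * q)) * Real.exp θ := by
        rw [← Real.exp_add]
        congr 1
        ring
      have h5 : Real.exp (θ * -q) = Real.exp (-(θ * q)) := by
        congr 1
        ring
      rw [h4, h5]
      have h6 : (q - η) * (Real.exp (-(θ * q)) * Real.exp θ) + (1 - q - η) * Real.exp (-(θ * q)) =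
          Real.exp (-(θ * q)) * (X - η * (Real.exp θ + 1)) := by
        rw [hX]
        ring
      rw [h6]
      refine mul_le_mul_of_nonneg_left ?_ (Real.exp_pos _).le
      nlinarith
    have h4 : -(θ * q) + Real.log X - 8 * η ≤ lam (tr η q (-q)) θ := by
      have h5 : Real.log (Real.exp (-(θ * q)) * (X * (1 - 4 * η))) ≤ lam (tr η q (-q)) θ :=
        Real.log_le_log (mul_pos (Real.exp_pos _) (mul_pos (by linarith) (by linarith))) h3
      rw [Real.log_mul (Real.exp_pos _).ne' (mul_pos (by linarith) (by linarith)).ne', Real.log_exp,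
        Real.log_mul (by linarith) (by linarith)] at h5
      have h6 : -(8 * η) ≤ Real.log (1 - 4 * η) := by
        have h7 := Real.one_sub_inv_le_log_of_pos (show 0 < 1 - 4 * η by linarith)
        have h8 : (1 - 4 * η)⁻¹ ≤ 1 + 8 * η := by
          rw [inv_le_iff_one_le_mul₀ (by linarith)]
          have h9 : 0 ≤ η * (1 - 8 * η) := mul_nonneg hη0.le (by linarith)
          have h10 : (1 + 8 * η) * (1 - 4 * η) = 1 + 4 * (η * (1 - 8 * η)) := by ring
          rw [h10]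
          linarith
        linarith
      linarith
    have h5 := kl_ge (p := q + δ) (q := q) (by linarith) (by linarith) (by linarith) (by linarith) θ
    rw [hkl, ← hX] at h5
    have h6 : θ * η ≤ η := mul_le_of_le_one_left hη0.le hθ1'
    have h7 : θ * (δ + 3 * η) = (q + δ) * θ - θ * q + 3 * (θ * η) := by ring
    rw [h7]
    linarith
  -- the Gibbs laws
  have hpm : ∫ t in (0 : ℝ)..1, p t = 0 := by
    have := coeff_zero hTC'.eq
    rw [hTC'.c0] at this
    exact_mod_cast this.symm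
  have hinv : 1 / η = Real.exp ℓ := by rw [hη, one_div, Real.exp_neg, inv_inv]
  have hlog : Real.log (1 / η) = ℓ := by rw [hinv, Real.log_exp]
  have hA0 : (0 : ℝ) < A := by linarith
  have hδ5 := mul_le_mul_of_nonneg_right hA5 hδ0.le
  obtain ⟨n, hn⟩ : ∃ n : ℕ, n = ⌈ℓ⌉₊ := ⟨_, rfl⟩
  have hn1 : ℓ ≤ n := by rw [hn]; exact Nat.le_ceil ℓ
  have hn2 : (n : ℝ) ≤ ℓ + 1 := by rw [hn]; exact (Nat.ceil_lt_add_one (by linarith)).le
  have hnpos : 1 ≤ n := by
    have : (0 : ℝ) < n := by linarith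
    exact_mod_cast this
  have hyn := yn_small hA1 hδ0 e2 hη hn1 hnpos
  obtain ⟨y, hy⟩ : ∃ y : ℝ, y = 2 * (A : ℝ) ^ 2 * δ := ⟨_, rfl⟩
  rw [← hy] at hyn
  have hy0 : 0 < y := by rw [hy]; positivity
  have hy100 : y ≤ 1 / 100 := by
    rw [hy]
    have := mul_le_mul_of_nonneg_right hA25 hδ0.le
    linarith
  have hy4 : y ≤ 1 / 4 := by linarith
  have hηη : η ^ 2 ≤ η := by
    have := mul_le_mul_of_nonneg_right hη1 hη0.le
    linarith
  obtain ⟨E, hEd⟩ : ∃ E : ℝ, E = 2 * y ^ (n + 1) := ⟨_, rfl⟩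
  have hE0 : 0 < E := by rw [hEd]; positivity
  have hEη : E ≤ η / 50 := by linarith
  have hE8 : E ≤ 1 / 8 := by linarith
  have hqq : ∀ θ, 0 ≤ θ → θ ≤ A * δ → ∀ t, |θ * p t| ≤ y := fun θ hθ0 hθA t => by
    rw [abs_mul, abs_of_nonneg hθ0]
    calc θ * |p t| ≤ (A * δ) * A := mul_le_mul hθA (hTC'.bd t) (abs_nonneg _) (by positivity)
      _ ≤ y := by
        rw [hy]
        have : 0 ≤ (A : ℝ) ^ 2 * δ := by positivity
        linarith
  have hAδ0 : 0 ≤ A * δ := by positivity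
  have hbig : δ ≤ discLaw (gT p n (A * δ)) := by
    have hqA := hqq _ hAδ0 le_rfl
    have h1 := big hpc hpc hpm (n := n) hAδ0 hqA hy4 hEd.ge hTC'.bd (η := 0) (fun t => by rw [sub_self, abs_zero]) rfl
    have h2 : 16 * δ ≤ A * δ * ((∫ t in (0 : ℝ)..1, p t ^ 2) - A * 0) := by
      have h3 := mul_le_mul_of_nonneg_left hvar hAδ0
      have h4 : A * δ * (16 / A) = 16 * δ := by field_simp
      linarith
    have h5 : A * (y ^ 2 + E) ≤ δ := by
      have h7 : A * y ^ 2 = 4 * (A : ℝ) ^ 5 * δ * δ := by rw [hy]; ring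
      have h8 : 200 * (A : ℝ) ^ 5 * δ * δ ≤ 1 * δ := mul_le_mul_of_nonneg_right e2 hδ0.le
      have h9 : A * E ≤ A * (η / 50) := mul_le_mul_of_nonneg_left hEη hA0.le
      have h10 := mul_le_mul_of_nonneg_right hA15 hη0.le
      linarith
    have hm1 := mT_pos hpc hpm hqA hy4 hEd.ge hE8
    have hm2 : mT p n (A * δ) ≤ 2 := by
      have h3 := (mT_bd hpc hqA hy4 hEd.ge (n := n)).2
      have h4 : ∫ t in (0 : ℝ)..1, Real.exp (A * δ * p t) ≤ ∫ _ in (0 : ℝ)..1, (3 / 2 : ℝ) := by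
        refine intervalIntegral.integral_mono_on (by norm_num) (Continuous.intervalIntegrable (by fun_prop) _ _)
          (by simp) fun t _ => ?_
        have h5 := (abs_le.1 (hqA t)).2
        have h6 : Real.exp (A * δ * p t) ≤ Real.exp (1 / 4) := Real.exp_le_exp.2 (by linarith)
        have h7 : Real.exp (1 / 4 : ℝ) ≤ 3 / 2 := by
          have h8 := Real.exp_bound' (show (0 : ℝ) ≤ 1 / 4 by norm_num) (by norm_num) (show 0 < 2 by norm_num)
          norm_num [Finset.sum_range_succ, Nat.factorial] at h8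
          linarith
        linarith
      simp only [intervalIntegral.integral_const, sub_zero, smul_eq_mul, one_mul] at h4
      linarith
    have hgc := gT_cont hpc n (A * δ)
    have hg0 := gT_pos hpc hpm hqA hy4 hEd.ge hE8
    have hg1 := gT_one hpc hpm hqA hy4 hEd.ge hE8
    have h6 : 4 * δ ≤ ∫ t in (0 : ℝ)..1, gT p n (A * δ) t * p t := by
      have h7 : ∫ t in (0 : ℝ)..1, gT p n (A * δ) t * p t = (∫ t in (0 : ℝ)..1, Tp p n (A * δ) t * p t) / mT p n (A * δ) := by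
        rw [← intervalIntegral.integral_div]
        refine intervalIntegral.integral_congr fun t _ => ?_
        simp only [gT]
        ring
      rw [h7, le_div_iff₀ (by linarith)]
      have h8 : 4 * δ * mT p n (A * δ) ≤ 4 * δ * 2 := mul_le_mul_of_nonneg_left hm2 (by linarith)
      linarith
    have h7 : ∫ t in (0 : ℝ)..1, gT p n (A * δ) t * p t ≤ (∫ t in (0 : ℝ)..1, gT p n (A * δ) t * tr η q (-q) t) + η := by
      have h3 : ∫ t in (0 : ℝ)..1, gT p n (A * δ) t * p t ≤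
          ∫ t in (0 : ℝ)..1, (gT p n (A * δ) t * tr η q (-q) t + η * gT p n (A * δ) t) :=
        intervalIntegral.integral_mono_on (by norm_num) (Continuous.intervalIntegrable (by fun_prop) _ _)
          (Continuous.intervalIntegrable (by fun_prop) _ _) fun t _ => by
            have h4 := (abs_le.1 (hp t)).2
            have h5 := mul_le_mul_of_nonneg_left (show p t ≤ tr η q (-q) t + η by linarith) (hg0 t).le
            linarith
      rw [intervalIntegral.integral_add (Continuous.intervalIntegrable (by fun_prop) _ _)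
        (Continuous.intervalIntegrable (by fun_prop) _ _), intervalIntegral.integral_const_mul, hg1] at h3
      linarith
    have h8 := tr_le_disc hη0 (by linarith) (by linarith : q + η ≤ 1) hgc (fun t => (hg0 t).le) hg1
    linarith
  obtain ⟨θ, hθ0, hθA, hθv⟩ := exists_disc hpc hpm hAδ0 hqq hy4 hEd.ge hE8 hδ0.le hbig
  have hqθ := hqq θ hθ0 hθA
  have hgc := gT_cont hpc n θ
  have hg0 := gT_pos hpc hpm hqθ hy4 hEd.ge hE8
  have hg1 := gT_one hpc hpm hqθ hy4 hEd.ge hE8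
  refine ⟨gT p n θ, hgc, fun t => ?_, fun t => (hg0 t).le, hg1, hθv, fun a b haa hab' s => ?_⟩
  · unfold gT Tp
    rw [gp_per hTC'.eq t]
  have hnm0 := nm_nonneg H c
  have hnm : nm H c ≤ 2 * A * ℓ := by
    have h1 := hTC'.nm_le
    rw [hlog] at h1
    have h2 : A * (1 + ℓ) ≤ A * (2 * ℓ) := mul_le_mul_of_nonneg_left (by linarith) hA0.le
    linarith
  have hHL : (H : ℝ) ≤ Real.exp (A * ℓ) := by
    refine hTC'.deg.trans (le_of_eq ?_)
    rw [hinv, ← Real.exp_nat_mul]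
  have hW : Real.exp (θ * nm H c) < (1 - E) * a₀ ^ (kap a₀ ((2 * (n * (H + 1) + 1) : ℕ) : ℝ) / 4) := by
    have hD1 : (1 : ℝ) ≤ ((2 * (n * (H + 1) + 1) : ℕ) : ℝ) := by
      push_cast
      have : (0 : ℝ) ≤ (n : ℝ) * (H + 1) := by positivity
      linarith
    have hD2 : ((2 * (n * (H + 1) + 1) : ℕ) : ℝ) ≤ Real.exp ((A + 4) * ℓ) := by
      have hLL : Real.exp ((A + 4) * ℓ) = Real.exp (A * ℓ) * Real.exp ℓ ^ 4 := by
        rw [← Real.exp_nat_mul, ← Real.exp_add]
        congr 1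
        push_cast
        ring
      have heL := Real.add_one_le_exp ℓ
      have heA : 1 ≤ Real.exp (A * ℓ) := Real.one_le_exp (by positivity)
      rw [hLL]
      push_cast
      have h1 : (n : ℝ) * (H + 1) ≤ Real.exp ℓ * (2 * Real.exp (A * ℓ)) :=
        mul_le_mul (by linarith) (by linarith) (by positivity) (Real.exp_pos _).le
      have h2 : (1 : ℝ) * 1 ≤ Real.exp ℓ * Real.exp (A * ℓ) := mul_le_mul (by linarith) heA (by norm_num) (Real.exp_pos _).le
      have h3 : (6 : ℝ) ≤ Real.exp ℓ ^ 3 := by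
        have h4 : (4 : ℝ) ≤ Real.exp ℓ := by linarith
        have h5 := pow_le_pow_left₀ (by norm_num) h4 3
        linarith
      have h4 : Real.exp ℓ * Real.exp (A * ℓ) * 6 ≤ Real.exp ℓ * Real.exp (A * ℓ) * Real.exp ℓ ^ 3 :=
        mul_le_mul_of_nonneg_left h3 (by positivity)
      have h5 : Real.exp ℓ * Real.exp (A * ℓ) * Real.exp ℓ ^ 3 = Real.exp (A * ℓ) * Real.exp ℓ ^ 4 := by ring
      linarith
    have hkU := hkap' _ hD1 hD2
    rw [Real.rpow_def_of_pos (by linarith)]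
    have h1 : θ * nm H c ≤ A * δ * (2 * A * ℓ) := mul_le_mul hθA hnm hnm0 hAδ0
    have h2 : Real.exp (-δ) ≤ 1 - E := by
      have h4 : Real.exp (-δ) ≤ 1 / (1 + δ) := by
        rw [Real.exp_neg, ← one_div]
        exact one_div_le_one_div_of_le (by linarith) (by linarith [Real.add_one_le_exp δ])
      refine h4.trans ?_
      rw [div_le_iff₀ (by linarith)]
      have h5 : E * δ ≤ E * 1 := mul_le_mul_of_nonneg_left (by linarith) hE0.le
      linarith
    have h3 : Real.exp (θ * nm H c) < Real.exp (-δ) * Real.exp (Real.log a₀ * (kap a₀ ((2 * (n * (H + 1) + 1) : ℕ) : ℝ) / 4)) := by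
      rw [← Real.exp_add]
      refine Real.exp_lt_exp.2 ?_
      have h4 : 1 * δ ≤ ℓ * δ := mul_le_mul_of_nonneg_right (by linarith) hδ0.le
      linarith
    refine h3.trans_le ?_
    exact mul_le_mul_of_nonneg_right h2 (Real.exp_pos _).le
  have hmain := law_dim ha haa hab' hTC'.eq hTC'.c0 hθ0 hqθ hy4 hEd.ge hE8 hW s
  refine (ENNReal.ofReal_le_ofReal ?_).trans hmain
  have hlb : 0 < Real.log b := Real.log_pos (by linarith)
  have h1 : θ * (∫ t in (0 : ℝ)..1, gT p n θ t * p t) - lam p θ + 4 * E ≤ rateD δ + 13 * η := by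
    have hθ1 : θ ≤ 1 := hθA.trans hδA
    have h2 : ∫ t in (0 : ℝ)..1, gT p n θ t * p t ≤ δ + 2 * η := by
      have h3 : ∫ t in (0 : ℝ)..1, gT p n θ t * p t ≤
          ∫ t in (0 : ℝ)..1, (gT p n θ t * tr η q (-q) t + η * gT p n θ t) :=
        intervalIntegral.integral_mono_on (by norm_num) (Continuous.intervalIntegrable (by fun_prop) _ _)
          (Continuous.intervalIntegrable (by fun_prop) _ _) fun t _ => by
            have h4 := (abs_le.1 (hp t)).2
            have h5 := mul_le_mul_of_nonneg_left (show p t ≤ tr η q (-q) t + η by linarith) (hg0 t).le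
            linarith
      rw [intervalIntegral.integral_add (Continuous.intervalIntegrable (by fun_prop) _ _)
        (Continuous.intervalIntegrable (by fun_prop) _ _), intervalIntegral.integral_const_mul, hg1] at h3
      have h8 := tr_le_disc hη0 (by linarith) (by linarith : q + η ≤ 1) hgc (fun t => (hg0 t).le) hg1
      rw [hθv] at h8
      linarith
    have h3 := mul_le_mul_of_nonneg_left h2 hθ0
    have h5 := hR θ hθ0 hθA
    have h6 : 0 ≤ θ * η := mul_nonneg hθ0 hη0.le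
    linarith
  have h2 := div_le_div_of_nonneg_right h1 hlb.le
  linarith

/-- **Level sets of the discrepancy.** -/
theorem disc_level {a₀ : ℝ} (ha : 1 < a₀) : ∃ c δ₀ : ℝ, 0 < c ∧ 0 < δ₀ ∧
    ∀ a b δ : ℝ, a₀ ≤ a → a < b → 0 < δ → δ ≤ δ₀ → ∀ s : ℕ → ℝ,
      DimLevel a b (fun x N => disc (fun n => x ^ (n + 1) + s n) N) δ (rateD δ) (Real.exp (-(c / √δ))) := by
  obtain ⟨c₁, hc₁, hup⟩ := disc_upper_exp ha
  obtain ⟨c₂, hc₂, hlow⟩ := disc_core ha
  have hc : 0 < min c₁ c₂ := lt_min hc₁ hc₂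
  obtain ⟨δ₁, hδ₁, hup'⟩ := hup (min c₁ c₂) hc (min_le_left _ _)
  obtain ⟨δ₂, hδ₂, hlow'⟩ := hlow (min c₁ c₂) hc (min_le_right _ _)
  obtain ⟨δ₃, hδ₃, hsm⟩ := exp_small (c := min c₁ c₂) (C := 13) hc (by norm_num)
  refine ⟨min c₁ c₂ / 2, min (min δ₁ δ₂) δ₃, by positivity, by positivity, fun a b δ haa hab' h0 hδ s => ?_⟩
  have h1 := hup' a b δ haa hab' h0 (hδ.trans ((min_le_left _ _).trans (min_le_left _ _))) s
  obtain ⟨g, hgc, hgp, hg0, hg1, hgv, hdim⟩ := hlow' δ h0 (hδ.trans ((min_le_left _ _).trans (min_le_right _ _)))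
  obtain ⟨-, -, -, h3⟩ := hsm δ h0 (hδ.trans (min_le_right _ _))
  have hpos := Real.exp_pos (-(min c₁ c₂ / √δ))
  refine DimLevel.of (by linarith) ((hdim a b haa hab' s).trans (dimH_mono ?_)) h1 h3 (le_trans ?_ h3)
  · rintro x ⟨hx, hlaw⟩
    refine ⟨hx, ?_⟩
    rw [← hgv]
    exact disc_of_law hgc hgp hg0 hg1 hlaw
  · linarith

end Pool.Agent.Helper18.GPL
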