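import Pool.Agent.Helper18.GP.TrigU
import Pool.Agent.Helper87.GJ.Main

/-!
Gibbs laws: the density proportional to the Taylor polynomial of `exp (θ p)`, its entropy, and the dimension of the points with
this law.
-/

set_option autoImplicit false

namespace Pool.Agent.Helper18.GPL

open Finset MeasureTheory Filter Topology
open Pool.Agent.Helper18.GP (gp nm gp_cont gp_lip coeff_zero nm_nonneg kap KK lam TP TP.mono_deg TP.mono_nm TP.smul TP.exp TP.congr
  exp_rem one_le_mgf)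
open Pool.Agent.Helper59.MF (HasLaw HasJoint)
open Pool.Agent.GJ (kJ KJ)

/-- Taylor polynomial of `exp (θ p)` -/
noncomputable def Tp (p : ℝ → ℝ) (n : ℕ) (θ t : ℝ) : ℝ := ∑ i ∈ range (n + 1), (θ * p t) ^ i / (i.factorial : ℝ)

/-- the normalizing factor -/
noncomputable def mT (p : ℝ → ℝ) (n : ℕ) (θ : ℝ) : ℝ := ∫ t in (0 : ℝ)..1, Tp p n θ t

/-- the density -/
noncomputable def gT (p : ℝ → ℝ) (n : ℕ) (θ t : ℝ) : ℝ := Tp p n θ t / mT p n θ

theorem Tp_cont2 {p : ℝ → ℝ} (hp : Continuous p) (n : ℕ) : Continuous (Function.uncurry (Tp p n)) := by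
  unfold Tp Function.uncurry
  fun_prop

theorem Tp_cont {p : ℝ → ℝ} (hp : Continuous p) (n : ℕ) (θ : ℝ) : Continuous (Tp p n θ) := by
  unfold Tp
  fun_prop

theorem mT_cont {p : ℝ → ℝ} (hp : Continuous p) (n : ℕ) : Continuous (mT p n) := by
  unfold mT
  exact intervalIntegral.continuous_parametric_intervalIntegral_of_continuous' (Tp_cont2 hp n) 0 1

theorem gT_cont {p : ℝ → ℝ} (hp : Continuous p) (n : ℕ) (θ : ℝ) : Continuous (gT p n θ) := by
  unfold gT
  exact (Tp_cont hp n θ).div_const _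

section

variable {p : ℝ → ℝ} (hpc : Continuous p) (hm : ∫ t in (0 : ℝ)..1, p t = 0) {θ y : ℝ} (hq : ∀ t, |θ * p t| ≤ y)
  (hy : y ≤ 1 / 4) {n : ℕ} {E : ℝ} (hE : 2 * y ^ (n + 1) ≤ E) (hE1 : E ≤ 1 / 8)

include hq hy hE in
theorem Tp_near (t : ℝ) : |Real.exp (θ * p t) - Tp p n θ t| ≤ E :=
  (exp_rem (hq t) (by linarith) n).trans hE

include hq hy hE hE1 in
theorem Tp_pos (t : ℝ) : 1 / 2 ≤ Tp p n θ t := by
  have h1 := (abs_le.1 (Tp_near hq hy hE t)).2
  have h2 := Real.add_one_le_exp (θ * p t)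
  have h3 := (abs_le.1 (hq t)).1
  linarith

include hpc hq hy hE in
theorem mT_bd : (∫ t in (0 : ℝ)..1, Real.exp (θ * p t)) - E ≤ mT p n θ ∧ mT p n θ ≤ (∫ t in (0 : ℝ)..1, Real.exp (θ * p t)) + E := by
  have hec : Continuous fun t => Real.exp (θ * p t) := Real.continuous_exp.comp (continuous_const.mul hpc)
  have hT := Tp_cont hpc n θ
  have h1 : (∫ t in (0 : ℝ)..1, Real.exp (θ * p t)) - mT p n θ = ∫ t in (0 : ℝ)..1, (Real.exp (θ * p t) - Tp p n θ t) := by
    rw [intervalIntegral.integral_sub (hec.intervalIntegrable _ _) (hT.intervalIntegrable _ _)]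
    rfl
  have h2 : ‖∫ t in (0 : ℝ)..1, (Real.exp (θ * p t) - Tp p n θ t)‖ ≤ E * |(1 : ℝ) - 0| :=
    intervalIntegral.norm_integral_le_of_norm_le_const fun t _ => by
      rw [Real.norm_eq_abs]
      exact Tp_near hq hy hE t
  rw [← h1, Real.norm_eq_abs, sub_zero, abs_one, mul_one] at h2
  have h3 := abs_le.1 h2
  constructor <;> linarith

include hpc hm hq hy hE hE1 in
theorem mT_pos : 7 / 8 ≤ mT p n θ := by
  have h1 := (mT_bd hpc hq hy hE).1
  have h2 := one_le_mgf hpc hm θ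
  linarith

include hpc hm hq hy hE hE1 in
theorem gT_pos (t : ℝ) : 0 < gT p n θ t := by
  have h1 := Tp_pos hq hy hE hE1 t
  have h2 := mT_pos hpc hm hq hy hE hE1
  unfold gT
  exact div_pos (by linarith) (by linarith)

include hpc hm hq hy hE hE1 in
theorem gT_one : ∫ t in (0 : ℝ)..1, gT p n θ t = 1 := by
  have h2 := mT_pos hpc hm hq hy hE hE1
  unfold gT
  rw [intervalIntegral.integral_div]
  exact div_self (by
    have : mT p n θ ≠ 0 := by linarith
    exact this)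

include hpc hm hq hy hE hE1 in
/-- the entropy -/
theorem entropy : ∫ t in (0 : ℝ)..1, gT p n θ t * Real.log (gT p n θ t) ≤
    θ * (∫ t in (0 : ℝ)..1, gT p n θ t * p t) - lam p θ + 4 * E := by
  have hm0 := mT_pos hpc hm hq hy hE hE1
  have hX := one_le_mgf hpc hm θ
  have hE0 : 0 ≤ E := (abs_nonneg _).trans (Tp_near hq hy hE 0)
  have hgc := gT_cont hpc n θ
  have hg0 := gT_pos hpc hm hq hy hE hE1
  have hg1 := gT_one hpc hm hq hy hE hE1
  have hlog : ∀ t, Real.log (gT p n θ t) ≤ θ * p t - lam p θ + 4 * E := by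
    intro t
    have hT := Tp_pos hq hy hE hE1 t
    have h1 : Real.log (gT p n θ t) = Real.log (Tp p n θ t) - Real.log (mT p n θ) := by
      unfold gT
      rw [Real.log_div (by linarith) (by linarith)]
    have h2 : Real.log (Tp p n θ t) ≤ θ * p t + 2 * E := by
      have h3 := (abs_le.1 (Tp_near hq hy hE t)).1
      have h4 : Tp p n θ t ≤ Real.exp (θ * p t) * (1 + 2 * E) := by
        have h5 : (1 : ℝ) / 2 ≤ Real.exp (θ * p t) := by
          have h6 := Real.add_one_le_exp (θ * p t)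
          have h7 := (abs_le.1 (hq t)).1
          linarith
        have h6 := mul_le_mul_of_nonneg_right h5 hE0
        linarith
      have h5 := Real.log_le_log (by linarith) h4
      rw [Real.log_mul (Real.exp_pos _).ne' (by positivity), Real.log_exp] at h5
      have h6 := Real.log_le_sub_one_of_pos (show 0 < 1 + 2 * E by positivity)
      linarith
    have h3 : lam p θ - 2 * E ≤ Real.log (mT p n θ) := by
      have h4 := (mT_bd hpc hq hy hE (n := n)).1
      obtain ⟨X, hXd⟩ : ∃ X : ℝ, X = ∫ t in (0 : ℝ)..1, Real.exp (θ * p t) := ⟨_, rfl⟩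
      have hl : lam p θ = Real.log X := by rw [hXd]; rfl
      rw [← hXd] at h4 hX
      have h5 : X * (1 - E) ≤ mT p n θ := by
        have := mul_le_mul_of_nonneg_right hX hE0
        linarith
      have h6 := Real.log_le_log (mul_pos (by linarith) (by linarith)) h5
      rw [Real.log_mul (by linarith) (by linarith)] at h6
      have h7 := Real.one_sub_inv_le_log_of_pos (show 0 < 1 - E by linarith)
      have h8 : (1 - E)⁻¹ ≤ 1 + 2 * E := by
        rw [inv_le_iff_one_le_mul₀ (by linarith)]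
        have h9 : 0 ≤ E * (1 - 2 * E) := mul_nonneg hE0 (by linarith)
        linarith
      rw [hl]
      linarith
    rw [h1]
    linarith
  have hlc : Continuous fun t => Real.log (gT p n θ t) := hgc.log fun t => (hg0 t).ne'
  have h1 : ∫ t in (0 : ℝ)..1, gT p n θ t * Real.log (gT p n θ t) ≤
      ∫ t in (0 : ℝ)..1, (θ * (gT p n θ t * p t) + (4 * E - lam p θ) * gT p n θ t) := by
    refine intervalIntegral.integral_mono_on (by norm_num) ((hgc.mul hlc).intervalIntegrable _ _)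
      (Continuous.intervalIntegrable (by fun_prop) _ _) fun t _ => ?_
    have h2 := mul_le_mul_of_nonneg_left (hlog t) (hg0 t).le
    linarith
  refine h1.trans (le_of_eq ?_)
  rw [intervalIntegral.integral_add (Continuous.intervalIntegrable (by fun_prop) _ _)
    (Continuous.intervalIntegrable (by fun_prop) _ _), intervalIntegral.integral_const_mul, intervalIntegral.integral_const_mul,
    hg1]
  ring

end

/-! ### exponents -/

theorem KK_anti {a₀ a X : ℝ} (ha : 1 < a₀) (haa : a₀ ≤ a) (hX : 1 ≤ X) : KK a X ≤ KK a₀ X := by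
  have hs0 : 1 < √a₀ := by
    rw [Real.lt_sqrt (by norm_num)]
    simpa using ha
  have hss : √a₀ ≤ √a := Real.sqrt_le_sqrt haa
  have hi : (√a)⁻¹ ≤ (√a₀)⁻¹ := inv_anti₀ (by linarith) hss
  have hi0 : (√a₀)⁻¹ < 1 := inv_lt_one_of_one_lt₀ hs0
  unfold KK
  refine Nat.floor_mono ?_
  have hl0 : 0 < Real.log (√a₀) := Real.log_pos hs0
  have hl1 : Real.log (√a₀) ≤ Real.log (√a) := Real.log_le_log (by linarith) hss
  have h1 : Real.log (X / (1 - (√a)⁻¹)) ≤ Real.log (X / (1 - (√a₀)⁻¹)) := by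
    refine Real.log_le_log (div_pos (by linarith) (by linarith)) ?_
    exact div_le_div_of_nonneg_left (by linarith) (by linarith) (by linarith)
  have h2 : 0 ≤ Real.log (X / (1 - (√a₀)⁻¹)) := by
    refine Real.log_nonneg ?_
    rw [le_div_iff₀ (by linarith)]
    have : 0 ≤ (√a₀)⁻¹ := by positivity
    linarith
  exact div_le_div₀ h2 h1 hl0 hl1

theorem pow_kJ {a₀ a : ℝ} (ha : 1 < a₀) (haa : a₀ ≤ a) {D : ℕ} (hD : 1 ≤ D) :
    a₀ ^ (kap a₀ ((2 * D : ℕ) : ℝ) / 4) ≤ a ^ (kJ a D) := by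
  have hDr : (1 : ℝ) ≤ D := by exact_mod_cast hD
  have h1 : kap a₀ ((2 * D : ℕ) : ℝ) / 4 ≤ kJ a D := by
    have h2 : (KK a (2 * D) : ℝ) ≤ KK a₀ (2 * D) := Nat.cast_le.2 (KK_anti ha haa (X := 2 * (D : ℝ)) (by linarith))
    unfold kJ KJ kap
    push_cast
    rw [div_div, div_le_div_iff₀ (by positivity) (by positivity)]
    have h3 : (0 : ℝ) ≤ KK a₀ (2 * D) := Nat.cast_nonneg _
    linarith
  have h2 : 0 ≤ kap a₀ ((2 * D : ℕ) : ℝ) / 4 := by
    unfold kap
    positivity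
  calc a₀ ^ (kap a₀ ((2 * D : ℕ) : ℝ) / 4) ≤ a ^ (kap a₀ ((2 * D : ℕ) : ℝ) / 4) :=
        Real.rpow_le_rpow (by linarith) haa h2
    _ ≤ a ^ (kJ a D) := Real.rpow_le_rpow_of_exponent_le (by linarith) h1

/-- **The points with a Gibbs law.** -/
theorem law_dim {a₀ a b : ℝ} (ha : 1 < a₀) (haa : a₀ ≤ a) (hab : a < b) {H : ℕ} {c : ℤ → ℂ} {p : ℝ → ℝ}
    (hp : ∀ t, gp H c t = p t) (hc0 : c 0 = 0) {θ y : ℝ} (hθ0 : 0 ≤ θ) (hq : ∀ t, |θ * p t| ≤ y) (hy : y ≤ 1 / 4)
    {n : ℕ} {E : ℝ} (hE : 2 * y ^ (n + 1) ≤ E) (hE1 : E ≤ 1 / 8)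
    (hW : Real.exp (θ * nm H c) < (1 - E) * a₀ ^ (kap a₀ ((2 * (n * (H + 1) + 1) : ℕ) : ℝ) / 4)) (s : ℕ → ℝ) :
    ENNReal.ofReal (1 - (θ * (∫ t in (0 : ℝ)..1, gT p n θ t * p t) - lam p θ + 4 * E) / Real.log b) ≤
      dimH {x : ℝ | x ∈ Set.Ioo a b ∧ HasLaw (fun n => x ^ (n + 1) + s n) (gT p n θ)} := by
  have hpc : Continuous p := by
    have h4 : p = fun t => (gp H c t).re := by
      funext t
      rw [hp t, Complex.ofReal_re]
    rw [h4]
    exact Complex.continuous_re.comp (gp_cont H c)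
  have hpm : ∫ t in (0 : ℝ)..1, p t = 0 := by
    have := coeff_zero hp
    rw [hc0] at this
    exact_mod_cast this.symm
  have hm0 := mT_pos hpc hpm hq hy hE hE1
  have hmb := (mT_bd hpc hq hy hE (n := n)).1
  have hX := one_le_mgf hpc hpm θ
  have hW0 : 0 ≤ θ * nm H c := mul_nonneg hθ0 (nm_nonneg _ _)
  have hTP : TP (n * (H + 1) + 1) (‖((mT p n θ)⁻¹ : ℂ)‖ * Real.exp (θ * nm H c)) (fun t => (gT p n θ t : ℂ)) := by
    have h1 : TP H (nm H c) (fun t => (p t : ℂ)) := ⟨c, hp, le_rfl⟩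
    have h2 := h1.smul (θ : ℂ)
    rw [Complex.norm_real, Real.norm_eq_abs, abs_of_nonneg hθ0] at h2
    have h3 := (h2.exp hW0 n).mono_deg (H' := n * (H + 1) + 1) ((Nat.mul_le_mul_left n (Nat.le_succ H)).trans (Nat.le_succ _))
    have h4 := h3.smul ((mT p n θ)⁻¹ : ℂ)
    refine h4.congr fun t => ?_
    unfold gT Tp
    push_cast
    rw [div_eq_inv_mul]
  obtain ⟨d, hd1, hd2⟩ := hTP
  have hd0 : d 0 = 1 := by
    rw [coeff_zero hd1, gT_one hpc hpm hq hy hE hE1]
    simp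
  have hnorm : ‖((mT p n θ)⁻¹ : ℂ)‖ = (mT p n θ)⁻¹ := by
    rw [norm_inv, Complex.norm_real, Real.norm_eq_abs, abs_of_pos (by linarith)]
  have hnm : nm (n * (H + 1) + 1) d < a ^ (kJ a ((n * (H + 1) + 1 : ℕ) : ℝ)) := by
    have h1 := pow_kJ ha haa (D := n * (H + 1) + 1) (by omega)
    refine lt_of_lt_of_le (lt_of_le_of_lt hd2 ?_) h1
    rw [hnorm, inv_mul_lt_iff₀ (by linarith)]
    refine hW.trans_le ?_
    exact mul_le_mul_of_nonneg_right (by linarith) (Real.rpow_nonneg (by linarith) _)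
  have hdim := (Pool.Agent.GJ.dim_J (by linarith : 1 < a) hab (by omega) hd1 hd0 (gT_pos hpc hpm hq hy hE hE1) hnm s).1
  rw [hdim]
  refine ENNReal.ofReal_le_ofReal ?_
  have hlb : 0 < Real.log b := Real.log_pos (by linarith)
  have h1 := entropy hpc hpm hq hy hE hE1
  have h2 := div_le_div_of_nonneg_right h1 hlb.le
  linarith

end Pool.Agent.Helper18.GPL
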